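import Pool.Graph.R_pool_sql_team_seeded_63374d34.N237.Pen.Dyn

/-!
# A bottle with a cap: the two obstacles (helper90)

Coordinates of a point `p` with respect to a unit vector `e`: the height `y = yy e p` and the square
`s = ss e p` of the distance from the axis. The cap `hh ≥ 0` is a thick dome, the inner side of which is
for `y ≥ 0` the half of the spheroid `s / 10 + y² / 9 = 1`, the focal circle of which is `y = 0`, `s = 1`.
The bottle `GG ≤ 0` is a thin shell near the sphere `s + (y + g / 2)² = 1 + g² / 4`, which contains the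
focal circle; the shell lies in `y ≤ 0` and has the focal circle as its lip.
-/

set_option autoImplicit false
open Set Filter Topology
open scoped RealInnerProductSpace ContDiff

namespace Pool.Agent.KS6_90.PD
open Pool.Agent.H800R2 Pool.Agent.N237.Pen

noncomputable section

variable {n : ℕ}

/-- the function which describes the spheroid -/
def uu (s y : ℝ) : ℝ := s / 10 + y ^ 2 / 9 - 1
/-- closes the rim of the cap -/
def cc (g y : ℝ) : ℝ := 9 * expNegInvGlue (-(2 * g * y))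
/-- the cap is `0 ≤ hh` -/
def hh (g s y : ℝ) : ℝ := uu s y * (3 - uu s y) - cc g y
/-- the sphere of the bottle is `ff = 0` -/
def ff (g s y : ℝ) : ℝ := s - 1 + g * y + y ^ 2
/-- the bottle is `GG ≤ 0` -/
def GG (g s y : ℝ) : ℝ := ff g s y ^ 2 + y

/-- the cap -/
def HH (e : Euc n) (g : ℝ) (p : Euc n) : ℝ := hh g (ss e p) (yy e p)
/-- the bottle -/
def BB (e : Euc n) (g : ℝ) (p : Euc n) : ℝ := GG g (ss e p) (yy e p)

/-- the obstacle: cap and bottle -/
def Ob (e : Euc n) (g : ℝ) : Set (Euc n) := {p | 0 ≤ HH e g p ∨ BB e g p ≤ 0}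

lemma cc_nonneg (g y : ℝ) : 0 ≤ cc g y := mul_nonneg (by norm_num) (expNegInvGlue.nonneg _)

lemma cc_zero {g y : ℝ} (hg : 0 < g) (hy : 0 ≤ y) : cc g y = 0 := by
  unfold cc
  rw [expNegInvGlue.zero_of_nonpos (by nlinarith), mul_zero]

lemma cc_big {g y : ℝ} (hy : 1 ≤ -(2 * g * y)) : 9 / 4 < cc g y := by
  unfold cc
  have h1 : ¬ (-(2 * g * y) ≤ 0) := by linarith
  unfold expNegInvGlue
  rw [if_neg h1]
  have h2 : (-(2 * g * y))⁻¹ ≤ 1 := inv_le_one_of_one_le₀ hy
  have h3 : Real.exp (-1) ≤ Real.exp (-(-(2 * g * y))⁻¹) := Real.exp_le_exp.2 (by linarith)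
  have h4 : (1 : ℝ) / 4 < Real.exp (-1) := by
    have := Real.exp_one_lt_three
    rw [Real.exp_neg, one_div]
    exact inv_strictAnti₀ (Real.exp_pos _) (by linarith)
  linarith

/-- the derivative of `cc` -/
def dc (g y : ℝ) : ℝ := 9 * (((-(2 * g * y))⁻¹ ^ 2 * expNegInvGlue (-(2 * g * y))) * (-(2 * g)))

lemma hasDerivAt_glue (x : ℝ) : HasDerivAt expNegInvGlue (x⁻¹ ^ 2 * expNegInvGlue x) x := by
  have h := expNegInvGlue.hasDerivAt_polynomial_eval_inv_mul 1 x
  simpa using h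

lemma hasDerivAt_cc (g y : ℝ) : HasDerivAt (cc g) (dc g y) y := by
  have h1 : HasDerivAt (fun y : ℝ => -(2 * g * y)) (-(2 * g)) y := by
    simpa using ((hasDerivAt_id y).const_mul (2 * g)).fun_neg
  exact ((hasDerivAt_glue _).comp y h1).const_mul 9

lemma dc_zero {g y : ℝ} (hg : 0 < g) (hy : 0 ≤ y) : dc g y = 0 := by
  unfold dc
  rw [expNegInvGlue.zero_of_nonpos (by nlinarith)]
  ring

lemma dc_ne {g y : ℝ} (hg : 0 < g) (hy : y < 0) : dc g y ≠ 0 := by
  have h1 : 0 < -(2 * g * y) := by nlinarith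
  have h2 := expNegInvGlue.pos_of_pos h1
  unfold dc
  have h3 : (-(2 * g * y))⁻¹ ≠ 0 := inv_ne_zero h1.ne'
  have h4 : -(2 * g) ≠ 0 := by linarith
  exact mul_ne_zero (by norm_num) (mul_ne_zero (mul_ne_zero (pow_ne_zero 2 h3) h2.ne') h4)

lemma contDiff_cc (g : ℝ) : ContDiff ℝ ∞ (cc g) := by
  unfold cc
  exact contDiff_const.mul (expNegInvGlue.contDiff.comp (by fun_prop))

lemma contDiff_HH (e : Euc n) (g : ℝ) : ContDiff ℝ ∞ (HH e g) := by
  unfold HH hh uu
  have h1 := contDiff_yy e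
  have h2 := contDiff_ss e
  have h3 : ContDiff ℝ ∞ (fun p => ss e p / 10 + yy e p ^ 2 / 9 - 1) :=
    ((h2.div_const 10).add ((h1.pow 2).div_const 9)).sub contDiff_const
  exact (h3.mul (contDiff_const.sub h3)).sub ((contDiff_cc g).comp h1)

lemma contDiff_BB (e : Euc n) (g : ℝ) : ContDiff ℝ ∞ (BB e g) := by
  unfold BB GG ff
  have h1 := contDiff_yy e
  have h2 := contDiff_ss e
  exact ((((h2.sub contDiff_const).add (contDiff_const.mul h1)).add (h1.pow 2)).pow 2).add h1

/-- gradient of the cap function -/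
lemma grad_HH (e p u : Euc n) (g : ℝ) : ⟪gradient (HH e g) p, u⟫ =
    (3 - 2 * uu (ss e p) (yy e p)) * ((⟪p, u⟫ - yy e p * yy e u) / 5 + 2 * yy e p / 9 * yy e u)
      - dc g (yy e p) * yy e u := by
  refine grad_inner (contDiff_HH e g) p u ?_
  have h1 := hd_yy e p u
  have h2 := hd_ss e p u
  have h3 : HasDerivAt (fun t : ℝ => uu (ss e (p + t • u)) (yy e (p + t • u)))
      ((⟪p, u⟫ - yy e p * yy e u) / 5 + 2 * yy e p / 9 * yy e u) 0 := by
    have h4 := ((h2.div_const 10).fun_add ((h1.fun_pow 2).div_const 9)).sub_const 1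
    refine h4.congr_deriv ?_
    simp
    ring
  have h5 : HasDerivAt (fun t : ℝ => cc g (yy e (p + t • u))) (dc g (yy e p) * yy e u) 0 := by
    have h6 : HasDerivAt (cc g) (dc g (yy e p)) (yy e (p + (0 : ℝ) • u)) := by
      simpa using hasDerivAt_cc g (yy e p)
    exact HasDerivAt.comp (h := fun t : ℝ => yy e (p + t • u)) (h₂ := cc g) (0 : ℝ) h6 h1
  have h7 := (h3.fun_mul (h3.const_sub 3)).fun_sub h5
  refine h7.congr_deriv ?_
  simp
  ring

/-- gradient of the bottle function -/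
lemma grad_BB (e p u : Euc n) (g : ℝ) : ⟪gradient (BB e g) p, u⟫ =
    2 * ff g (ss e p) (yy e p) * (2 * (⟪p, u⟫ - yy e p * yy e u) + (g + 2 * yy e p) * yy e u)
      + yy e u := by
  refine grad_inner (contDiff_BB e g) p u ?_
  have h1 := hd_yy e p u
  have h2 := hd_ss e p u
  have h3 : HasDerivAt (fun t : ℝ => ff g (ss e (p + t • u)) (yy e (p + t • u)))
      (2 * (⟪p, u⟫ - yy e p * yy e u) + (g + 2 * yy e p) * yy e u) 0 := by
    have h4 := ((h2.sub_const 1).fun_add (h1.const_mul g)).fun_add (h1.fun_pow 2)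
    refine h4.congr_deriv ?_
    simp
    ring
  have h5 := (h3.fun_pow 2).fun_add h1
  refine h5.congr_deriv ?_
  simp

lemma inner_self_eq (e p : Euc n) : ⟪p, p⟫ = ss e p + yy e p ^ 2 := by
  rw [real_inner_self_eq_norm_sq]; unfold ss; ring

/-- the cap lies above the height `-1 / (2 g)` and in `0 ≤ uu ≤ 3` -/
lemma hh_bounds {g s y : ℝ} (h : 0 ≤ hh g s y) :
    -1 < 2 * g * y ∧ 0 ≤ uu s y ∧ uu s y ≤ 3 := by
  unfold hh at h
  have h0 := cc_nonneg g y
  have h1 : 0 ≤ uu s y * (3 - uu s y) := by linarith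
  refine ⟨?_, ?_, ?_⟩
  · by_contra hcon
    push Not at hcon
    have := cc_big (g := g) (y := y) (by linarith)
    nlinarith [sq_nonneg (uu s y - 3 / 2)]
  · nlinarith
  · nlinarith

/-- cap and bottle are disjoint -/
lemma GG_pos_of_hh {g s y : ℝ} (hg : 8 ≤ g) (h : 0 ≤ hh g s y) : 0 < GG g s y := by
  obtain ⟨h1, h2, h3⟩ := hh_bounds h
  unfold GG
  rcases lt_or_ge 0 y with hy | hy
  · positivity
  · have hy1 : -(1 / 16) < y := by nlinarith
    unfold uu at h2
    have h4 : 8 < ff g s y := by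
      unfold ff
      nlinarith
    nlinarith

lemma hh_neg_of_GG {g s y : ℝ} (hg : 8 ≤ g) (h : GG g s y ≤ 0) : hh g s y < 0 := by
  by_contra hcon
  push Not at hcon
  exact absurd h (not_le.2 (GG_pos_of_hh hg hcon))

lemma grad_HH_ne {e p : Euc n} {g : ℝ} (hg : 8 ≤ g) (he : ‖e‖ = 1) (h : HH e g p = 0) :
    gradient (HH e g) p ≠ 0 := by
  intro h0
  have hg0 : 0 < g := by linarith
  obtain ⟨b1, b2, b3⟩ := hh_bounds (le_of_eq h.symm : 0 ≤ hh g (ss e p) (yy e p))
  have h1 := grad_HH e p e g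
  have h2 := grad_HH e p p g
  rw [h0, inner_zero_left] at h1 h2
  have h3 : ⟪p, e⟫ = yy e p := real_inner_comm _ _
  have h4 := inner_self_eq e p
  rw [h3, yy_self he] at h1
  rw [h4] at h2
  have hpp : yy e p = yy e p := rfl
  obtain ⟨y, hy⟩ : ∃ y, y = yy e p := ⟨_, rfl⟩
  obtain ⟨s, hs⟩ : ∃ s, s = ss e p := ⟨_, rfl⟩
  obtain ⟨u, hu⟩ : ∃ u, u = uu s y := ⟨_, rfl⟩
  unfold HH at h
  rw [← hy] at b1
  rw [← hy, ← hs] at h h1 h2 b2 b3
  have hs0 : 0 ≤ s := by rw [hs]; exact ss_nonneg he p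
  rw [← hu] at h1 h2 b2 b3
  -- the radial direction
  have h5 : (3 - 2 * u) * s = 0 := by linear_combination 5 * y * h1 - 5 * h2
  unfold hh at h
  rw [← hu] at h
  rcases mul_eq_zero.1 h5 with h6 | h6
  · have hu2 : u = 3 / 2 := by linarith
    rw [hu2] at h h1
    have hy0 : y < 0 := by
      by_contra hcon
      push Not at hcon
      rw [cc_zero hg0 hcon] at h
      norm_num at h
    have := dc_ne hg0 hy0
    apply this
    linarith
  · rcases lt_or_ge 0 y with hy0 | hy0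
    · rw [cc_zero hg0 hy0.le] at h
      rw [dc_zero hg0 hy0.le] at h1
      have h7 : (3 - 2 * u) * y = 0 := by linear_combination (-9 / 2) * h1
      rcases mul_eq_zero.1 h7 with h8 | h8
      · have hu2 : u = 3 / 2 := by linarith
        rw [hu2] at h
        norm_num at h
      · linarith
    · have hy1 : -(1 / 16) < y := by nlinarith
      unfold uu at hu
      rw [h6] at hu
      nlinarith

lemma grad_BB_ne {e p : Euc n} {g : ℝ} (he : ‖e‖ = 1) (h : BB e g p = 0) :
    gradient (BB e g) p ≠ 0 := by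
  intro h0
  have h1 := grad_BB e p e g
  have h2 := grad_BB e p p g
  rw [h0, inner_zero_left] at h1 h2
  have h3 : ⟪p, e⟫ = yy e p := real_inner_comm _ _
  have h4 := inner_self_eq e p
  rw [h3, yy_self he] at h1
  rw [h4] at h2
  obtain ⟨y, hy⟩ : ∃ y, y = yy e p := ⟨_, rfl⟩
  obtain ⟨s, hs⟩ : ∃ s, s = ss e p := ⟨_, rfl⟩
  obtain ⟨f, hf⟩ : ∃ f, f = ff g s y := ⟨_, rfl⟩
  unfold BB GG at h
  rw [← hy, ← hs] at h h1 h2
  have hs0 : 0 ≤ s := by rw [hs]; exact ss_nonneg he p
  rw [← hf] at h h1 h2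
  have h5 : f * s = 0 := by linear_combination (-1 / 4) * h2 + (y / 4) * h1
  have h6 : 2 * f * (g + 2 * y) = -1 := by linear_combination -h1
  rcases mul_eq_zero.1 h5 with h7 | h7
  · rw [h7] at h6
    norm_num at h6
  · -- on the axis
    unfold ff at hf
    rw [h7] at hf
    have hy0 : y = -f ^ 2 := by linarith
    -- `f = -1 - g f² + f⁴`
    have h8 : f = -1 - g * f ^ 2 + f ^ 4 := by rw [hy0] at hf; linear_combination hf
    rw [hy0] at h6
    have h9 : 2 * f * (g - 2 * f ^ 2) = -1 := by linear_combination h6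
    -- eliminate `g`
    have h11 : 2 * f ^ 4 + f + 2 = 0 := by linear_combination (2 : ℝ) * h8 - f * h9
    nlinarith [sq_nonneg (f ^ 2 - 1 / 2), sq_nonneg (f + 1 / 4)]

end

end Pool.Agent.KS6_90.PD
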