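import Pool.Agent.KS6_90.PD.Geo

/-!
# The complement of the cap and the bottle in a ball is connected (helper90)
-/

set_option autoImplicit false
open Set Filter Topology
open scoped RealInnerProductSpace ContDiff

namespace Pool.Agent.KS6_90.PD
open Pool.Agent.H800R2 Pool.Agent.N237.Pen

noncomputable section

variable {n : ℕ}

/-- the ball without the obstacles -/
def Wd (e : Euc n) (g : ℝ) : Set (Euc n) :=
  Metric.closedBall (cen e g) (g / 2 + 8) \ Ob e g

/-- the same region in the half-plane -/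
def Fr (g s y : ℝ) : Prop :=
  hh g s y < 0 ∧ 0 < GG g s y ∧ s + (y + g / 2) ^ 2 ≤ (g / 2 + 8) ^ 2

lemma mem_Wd {e : Euc n} (he : ‖e‖ = 1) {g : ℝ} (hg : 8 ≤ g) {p : Euc n} :
    p ∈ Wd e g ↔ Fr g (ss e p) (yy e p) := by
  unfold Wd Fr
  rw [Set.mem_sdiff, mem_closedBall_iff_norm, not_Ob, ← norm_sub_cen he]
  have h1 : ‖p - cen e g‖ ≤ g / 2 + 8 ↔ ‖p - cen e g‖ ^ 2 ≤ (g / 2 + 8) ^ 2 :=
    (sq_le_sq₀ (norm_nonneg _) (by linarith)).symm
  rw [h1]
  change _ ∧ hh g (ss e p) (yy e p) < 0 ∧ 0 < GG g (ss e p) (yy e p) ↔ _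
  tauto

/-- points of a half-plane bounded by the axis -/
def Psi (e w : Euc n) (y a : ℝ) : Euc n := y • e + a • w

section Slice

variable {e w : Euc n} (he : ‖e‖ = 1) (hw : ‖w‖ = 1) (hew : ⟪e, w⟫ = 0)

include he hew in
lemma yy_Psi (y a : ℝ) : yy e (Psi e w y a) = y := by
  unfold Psi
  rw [yy_add, yy_smul, yy_smul, yy_self he]
  unfold yy
  rw [hew]; ring

include he hw hew in
lemma ss_Psi (y a : ℝ) : ss e (Psi e w y a) = a ^ 2 := by
  have h1 : yy e (Psi e w y a) = y := yy_Psi he hew y a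
  unfold ss
  rw [h1]
  unfold Psi
  rw [norm_add_sq_real, norm_smul, norm_smul, he, hw, inner_smul_left, inner_smul_right, hew]
  simp

variable {g : ℝ} (hg : 8 ≤ g)

include he hw hew hg in
lemma seg {y₁ a₁ y₂ a₂ : ℝ}
    (h : ∀ t ∈ Icc (0 : ℝ) 1, Fr g ((a₁ + t * (a₂ - a₁)) ^ 2) (y₁ + t * (y₂ - y₁))) :
    JoinedIn (Wd e g) (Psi e w y₁ a₁) (Psi e w y₂ a₂) := by
  apply JoinedIn.of_segment_subset
  intro q hq
  rw [segment_eq_image'] at hq
  obtain ⟨t, ht, rfl⟩ := hq
  have e1 : Psi e w y₁ a₁ + t • (Psi e w y₂ a₂ - Psi e w y₁ a₁)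
      = Psi e w (y₁ + t * (y₂ - y₁)) (a₁ + t * (a₂ - a₁)) := by
    unfold Psi
    module
  change Psi e w y₁ a₁ + t • (Psi e w y₂ a₂ - Psi e w y₁ a₁) ∈ Wd e g
  rw [e1, mem_Wd he hg, ss_Psi he hw hew, yy_Psi he hew]
  exact h t ht

include he hw hew hg in
lemma seg_h {y a₁ a₂ : ℝ} (h1 : 0 ≤ a₁) (h2 : 0 ≤ a₂)
    (h : ∀ s, (a₁ ^ 2 ≤ s ∧ s ≤ a₂ ^ 2) ∨ (a₂ ^ 2 ≤ s ∧ s ≤ a₁ ^ 2) → Fr g s y) :
    JoinedIn (Wd e g) (Psi e w y a₁) (Psi e w y a₂) := by
  apply seg he hw hew hg
  intro t ht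
  have e1 : y + t * (y - y) = y := by ring
  rw [e1]
  apply h
  rcases le_total a₁ a₂ with h3 | h3
  · left
    have h4 : a₁ ≤ a₁ + t * (a₂ - a₁) := by nlinarith [ht.1]
    have h5 : a₁ + t * (a₂ - a₁) ≤ a₂ := by nlinarith [ht.2]
    exact ⟨pow_le_pow_left₀ h1 h4 2, pow_le_pow_left₀ (h1.trans h4) h5 2⟩
  · right
    have h4 : a₂ ≤ a₁ + t * (a₂ - a₁) := by nlinarith [ht.2]
    have h5 : a₁ + t * (a₂ - a₁) ≤ a₁ := by nlinarith [ht.1]
    exact ⟨pow_le_pow_left₀ h2 h4 2, pow_le_pow_left₀ (h2.trans h4) h5 2⟩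

include he hw hew hg in
lemma seg_v {y₁ y₂ a : ℝ}
    (h : ∀ y, (y₁ ≤ y ∧ y ≤ y₂) ∨ (y₂ ≤ y ∧ y ≤ y₁) → Fr g (a ^ 2) y) :
    JoinedIn (Wd e g) (Psi e w y₁ a) (Psi e w y₂ a) := by
  apply seg he hw hew hg
  intro t ht
  have e1 : a + t * (a - a) = a := by ring
  rw [e1]
  apply h
  rcases le_total y₁ y₂ with h3 | h3
  · left
    exact ⟨by nlinarith [ht.1], by nlinarith [ht.2]⟩
  · right
    exact ⟨by nlinarith [ht.2], by nlinarith [ht.1]⟩

/-- joined to a point of the sphere -/
def Tg (e : Euc n) (g : ℝ) (p : Euc n) : Prop :=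
  ∃ q ∈ Metric.sphere (cen e g) (g / 2 + 8), JoinedIn (Wd e g) p q

lemma Tg.of_joined {p q : Euc n} (h : JoinedIn (Wd e g) p q) (hq : Tg e g q) : Tg e g p := by
  obtain ⟨r, hr, hj⟩ := hq
  exact ⟨r, hr, h.trans hj⟩

include he hw hew hg in
lemma outward {y a : ℝ} (ha : 0 ≤ a) (hy : a ^ 2 + (y + g / 2) ^ 2 ≤ (g / 2 + 8) ^ 2)
    (h : ∀ s, a ^ 2 ≤ s → hh g s y < 0 ∧ 0 < GG g s y) : Tg e g (Psi e w y a) := by
  obtain ⟨c, hc⟩ : ∃ c, c = (g / 2 + 8) ^ 2 - (y + g / 2) ^ 2 := ⟨_, rfl⟩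
  have hc0 : a ^ 2 ≤ c := by linarith
  have hcs : √c ^ 2 = c := Real.sq_sqrt ((sq_nonneg a).trans hc0)
  refine ⟨Psi e w y √c, ?_, seg_h he hw hew hg ha (Real.sqrt_nonneg _) fun s hs => ?_⟩
  · rw [mem_sphere_iff_norm]
    have h1 := norm_sub_cen he g (Psi e w y √c)
    rw [ss_Psi he hw hew, yy_Psi he hew, hcs] at h1
    have h2 : ‖Psi e w y √c - cen e g‖ ^ 2 = (g / 2 + 8) ^ 2 := by rw [h1, hc]; ring
    exact (pow_left_inj₀ (norm_nonneg _) (by linarith) two_ne_zero).1 h2
  · rw [hcs] at hs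
    have h1 : a ^ 2 ≤ s ∧ s ≤ c := by
      rcases hs with h | h
      · exact h
      · exact ⟨by linarith, by linarith⟩
    obtain ⟨h2, h3⟩ := h s h1.1
    exact ⟨h2, h3, by linarith [h1.2]⟩

end Slice

lemma hh_neg_low {g s y : ℝ} (hy : 2 * g * y ≤ -1) : hh g s y < 0 := by
  by_contra hcon
  push Not at hcon
  obtain ⟨h1, -, -⟩ := hh_bounds hcon
  linarith

lemma hh_neg_of_uu {g s y : ℝ} (h : uu s y < 0) : hh g s y < 0 := by
  unfold hh
  have := cc_nonneg g y
  nlinarith

lemma GG_mono {g s s' y : ℝ} (h : s ≤ s') (hf : 0 < ff g s y) (hG : 0 < GG g s y) :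
    0 < GG g s' y := by
  have h1 : ff g s y ≤ ff g s' y := by unfold ff; linarith
  unfold GG at hG ⊢
  nlinarith

lemma GG_anti {g s s' y : ℝ} (h : s' ≤ s) (hf : ff g s y < 0) (hG : 0 < GG g s y) :
    0 < GG g s' y := by
  have h1 : ff g s' y ≤ ff g s y := by unfold ff; linarith
  unfold GG at hG ⊢
  nlinarith

section Cases

variable {e w : Euc n} (he : ‖e‖ = 1) (hw : ‖w‖ = 1) (hew : ⟪e, w⟫ = 0) {g : ℝ} (hg : 8 ≤ g)

include he hw hew hg in
/-- the way out, at `s = 5` -/
lemma middle {y : ℝ} (h1 : -1 ≤ g * y) (h2 : y ≤ 1) : Tg e g (Psi e w y √5) := by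
  have h5 : √5 ^ 2 = 5 := Real.sq_sqrt (by norm_num)
  have hg0 : 0 < g := by linarith
  have hgi : g * (-1 / g) = -1 := by field_simp
  have free : ∀ y', -1 ≤ g * y' → y' ≤ 1 → Fr g 5 y' := by
    intro y' h3 h4
    have h6 : -(1 / 8) ≤ y' := by nlinarith
    refine ⟨hh_neg_of_uu (by unfold uu; nlinarith), ?_, by nlinarith⟩
    unfold GG ff
    have h7 : 3 ≤ 5 - 1 + g * y' + y' ^ 2 := by nlinarith
    nlinarith
  have hy1 : -1 / g ≤ y := by
    rw [div_le_iff₀ hg0]; linarith
  refine Tg.of_joined (q := Psi e w (-1 / g) √5) (seg_v he hw hew hg fun y' hy' => ?_) ?_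
  · rw [h5]
    rcases hy' with h | h
    · have : y = y' := by linarith [h.1, h.2]
      exact free y' (by rw [← this]; exact h1) (by rw [← this]; exact h2)
    · refine free y' ?_ (by linarith [h.2])
      have := mul_le_mul_of_nonneg_left h.1 hg0.le
      linarith
  · obtain ⟨f1, f2, f3⟩ := free (-1 / g) hgi.ge (by linarith)
    refine outward he hw hew hg (Real.sqrt_nonneg _) (by rw [h5]; exact f3) fun s hs => ?_
    rw [h5] at hs
    refine ⟨hh_neg_low (by rw [mul_assoc, hgi]; norm_num), GG_mono hs ?_ f2⟩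
    unfold ff
    rw [hgi]
    nlinarith [sq_nonneg (-1 / g)]

include he hw hew hg in
/-- from the axis above the gate -/
lemma axis_up : Tg e g (Psi e w 1 0) := by
  have h5 : √5 ^ 2 = 5 := Real.sq_sqrt (by norm_num)
  refine Tg.of_joined (q := Psi e w 1 √5)
    (seg_h he hw hew hg le_rfl (Real.sqrt_nonneg _) fun s hs => ?_)
    (middle he hw hew hg (by linarith) le_rfl)
  rw [h5] at hs
  have hs' : 0 ≤ s ∧ s ≤ 5 := by
    rcases hs with h | h
    · exact ⟨by linarith [h.1], h.2⟩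
    · exact ⟨by linarith [h.1], by linarith [h.2]⟩
  refine ⟨hh_neg_of_uu (by unfold uu; linarith [hs'.2]), ?_, by nlinarith [hs'.2]⟩
  unfold GG
  positivity

include he hw hew hg in
/-- the inside of the bottle -/
lemma cavity {y a : ℝ} (ha : 0 ≤ a) (hF : Fr g (a ^ 2) y) (hy : y ≤ 0)
    (hf : ff g (a ^ 2) y < 0) : Tg e g (Psi e w y a) := by
  obtain ⟨f1, f2, f3⟩ := hF
  have hg0 : 0 < g := by linarith
  have ha2 := sq_nonneg a
  -- the axis is free from the height `y` on
  have low : ∀ y', y ≤ y' → y' ≤ 0 → 0 < GG g 0 y' := by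
    intro y' h1 h2
    have hfy : ff g 0 y < 0 := lt_of_le_of_lt (by unfold ff; linarith) hf
    have hGy : 0 < GG g 0 y := GG_anti ha2 hf f2
    unfold GG ff at *
    rcases le_or_gt (-y') (g - 1) with h3 | h3
    · have h4 : 0 - 1 + g * y' + y' ^ 2 ≤ -(1 - y') := by nlinarith
      nlinarith
    · have h4 : 0 - 1 + g * y' + y' ^ 2 ≤ 0 - 1 + g * y + y ^ 2 := by nlinarith
      nlinarith
  have hhax : ∀ s y', s ≤ 2 → y' ≤ 1 → (0 ≤ y' ∨ y' ≤ 0) → hh g s y' < 0 := by
    intro s y' h0 h1 _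
    rcases le_or_gt (2 * g * y') (-1) with h3 | h3
    · exact hh_neg_low h3
    · refine hh_neg_of_uu ?_
      have h4 : -(1 / 16) < y' := by nlinarith
      unfold uu
      nlinarith
  refine Tg.of_joined (q := Psi e w y 0) (seg_h he hw hew hg ha le_rfl fun s hs => ?_) ?_
  · have hs' : 0 ≤ s ∧ s ≤ a ^ 2 := by
      rcases hs with h | h
      · exact ⟨by linarith [h.1], by linarith [h.1, h.2]⟩
      · exact ⟨by linarith [h.1], h.2⟩
    refine ⟨?_, GG_anti hs'.2 hf f2, by linarith [hs'.2]⟩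
    rcases le_or_gt (2 * g * y) (-1) with h3 | h3
    · exact hh_neg_low h3
    · refine hhax s y ?_ (by linarith) (Or.inr hy)
      unfold ff at hf
      nlinarith [hs'.2]
  · refine Tg.of_joined (q := Psi e w 1 0) (seg_v he hw hew hg fun y' hy' => ?_)
      (axis_up he hw hew hg)
    have h1 : y ≤ y' ∧ y' ≤ 1 := by
      rcases hy' with h | h
      · exact h
      · exact ⟨by linarith [h.1], by linarith [h.2]⟩
    have h0 : (0 : ℝ) ^ 2 = 0 := by norm_num
    rw [h0]
    refine ⟨hhax 0 y' (by norm_num) h1.2 (le_total _ _), ?_, ?_⟩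
    · rcases le_or_gt y' 0 with h2 | h2
      · exact low y' h1.1 h2
      · unfold GG; positivity
    · have h2 : (y + g / 2) ^ 2 ≤ (g / 2 + 8) ^ 2 := by linarith
      have h3 := abs_le_of_sq_le_sq' h2 (by linarith)
      rw [zero_add]
      exact pow_le_pow_left₀ (abs_nonneg _) (abs_le.2 ⟨by linarith [h3.1], by linarith⟩ :
        |y' + g / 2| ≤ g / 2 + 8) 2 |> fun h => by rwa [sq_abs] at h

include he hw hew hg in
/-- every free point is joined to the sphere -/
lemma all_joined {y a : ℝ} (ha : 0 ≤ a) (hF : Fr g (a ^ 2) y) : Tg e g (Psi e w y a) := by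
  have hF' := hF
  obtain ⟨f1, f2, f3⟩ := hF
  have hg0 : 0 < g := by linarith
  have ha2 := sq_nonneg a
  have h5 : √5 ^ 2 = 5 := Real.sq_sqrt (by norm_num)
  rcases le_or_gt (2 * g * y) (-1) with h1 | h1
  · have hy : y < 0 := by nlinarith
    rcases lt_trichotomy (ff g (a ^ 2) y) 0 with h2 | h2 | h2
    · exact cavity he hw hew hg ha hF' hy.le h2
    · exfalso
      unfold GG at f2
      rw [h2] at f2
      linarith
    · exact outward he hw hew hg ha f3 fun s hs => ⟨hh_neg_low h1, GG_mono hs h2 f2⟩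
  · have hy : -(1 / 16) < y := by nlinarith
    have hgy : -1 / 2 < g * y := by nlinarith
    rcases le_or_gt (3 / 2) (uu (a ^ 2) y) with h2 | h2
    · refine outward he hw hew hg ha f3 fun s hs => ⟨?_, ?_⟩
      · have h3 : uu (a ^ 2) y ≤ uu s y := by unfold uu; linarith
        unfold hh at f1 ⊢
        nlinarith
      · rcases le_or_gt y 0 with h4 | h4
        · unfold uu at h2
          have h6 : 1 ≤ ff g s y := by unfold ff; nlinarith
          unfold GG
          nlinarith
        · unfold GG; positivity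
    · rcases le_or_gt y 0 with h4 | h4
      · rcases lt_trichotomy (ff g (a ^ 2) y) 0 with h3 | h3 | h3
        · exact cavity he hw hew hg ha hF' h4 h3
        · exfalso
          unfold GG at f2
          rw [h3] at f2
          linarith
        · refine Tg.of_joined (q := Psi e w y √5)
            (seg_h he hw hew hg ha (Real.sqrt_nonneg _) fun s hs => ?_)
            (middle he hw hew hg (by linarith) (by linarith))
          rw [h5] at hs
          have hu5 : uu 5 y < 0 := by unfold uu; nlinarith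
          have b5 : 5 + (y + g / 2) ^ 2 ≤ (g / 2 + 8) ^ 2 := by nlinarith
          refine ⟨?_, ?_, ?_⟩
          · rcases hs with h | h
            · refine hh_neg_of_uu (lt_of_le_of_lt ?_ hu5)
              unfold uu; linarith [h.2]
            · have h6 : uu s y ≤ uu (a ^ 2) y := by unfold uu; linarith [h.2]
              unfold hh at f1 ⊢
              nlinarith
          · rcases hs with h | h
            · exact GG_mono h.1 h3 f2
            · refine GG_mono h.1 ?_ ?_
              · unfold ff; nlinarith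
              · have h7 : 3 ≤ ff g 5 y := by unfold ff; nlinarith
                unfold GG; nlinarith
          · rcases hs with h | h
            · linarith [h.2]
            · linarith [h.2]
      · -- in the cap
        have hu : uu (a ^ 2) y < 0 := by
          unfold hh at f1
          rw [cc_zero hg0 h4.le] at f1
          nlinarith
        have key : ∀ z, 0 < z → z ≤ 1 → uu (a ^ 2) z < 0 → Tg e g (Psi e w z a) := by
          intro z h6 h7 h8
          refine Tg.of_joined (q := Psi e w z √5)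
            (seg_h he hw hew hg ha (Real.sqrt_nonneg _) fun s hs => ?_)
            (middle he hw hew hg (by nlinarith) h7)
          rw [h5] at hs
          have hu5 : uu 5 z < 0 := by unfold uu; nlinarith
          have hus : uu s z < 0 := by
            rcases hs with h | h
            · refine lt_of_le_of_lt ?_ hu5
              unfold uu; linarith [h.2]
            · refine lt_of_le_of_lt ?_ h8
              unfold uu; linarith [h.2]
          refine ⟨hh_neg_of_uu hus, by unfold GG; positivity, ?_⟩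
          unfold uu at hus
          nlinarith
        rcases le_or_gt y 1 with h6 | h6
        · exact key y h4 h6 hu
        · have hu1 : uu (a ^ 2) 1 < 0 := by
            unfold uu at hu ⊢
            nlinarith
          refine Tg.of_joined (q := Psi e w 1 a) (seg_v he hw hew hg fun y' hy' => ?_)
            (key 1 one_pos le_rfl hu1)
          have h7 : 1 ≤ y' ∧ y' ≤ y := by
            rcases hy' with h | h
            · exact ⟨by linarith [h.1], by linarith [h.1, h.2]⟩
            · exact h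
          have hu' : uu (a ^ 2) y' < 0 := by
            unfold uu at hu ⊢
            nlinarith [h7.1, h7.2]
          refine ⟨hh_neg_of_uu hu', ?_, ?_⟩
          · have : 0 < y' := by linarith [h7.1]
            unfold GG; positivity
          · unfold uu at hu'
            have : y' ≤ 3 := by nlinarith
            nlinarith

end Cases

/-- every point lies in a half-plane bounded by the axis -/
lemma exists_Psi (hn : 2 ≤ n) {e : Euc n} (he : ‖e‖ = 1) (p : Euc n) :
    ∃ w : Euc n, ∃ a : ℝ, ‖w‖ = 1 ∧ ⟪e, w⟫ = 0 ∧ 0 ≤ a ∧ p = Psi e w (yy e p) a := by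
  by_cases h : xx e p = 0
  · obtain ⟨w, hw, hew⟩ := exists_perp hn (e := e)
    refine ⟨w, 0, hw, hew, le_rfl, ?_⟩
    unfold Psi
    rw [zero_smul, add_zero]
    unfold xx at h
    exact sub_eq_zero.1 h
  · have h1 : ‖xx e p‖ ≠ 0 := norm_ne_zero_iff.2 h
    refine ⟨‖xx e p‖⁻¹ • xx e p, ‖xx e p‖, ?_, ?_, norm_nonneg _, ?_⟩
    · rw [norm_smul, norm_inv, norm_norm, inv_mul_cancel₀ h1]
    · rw [inner_smul_right]
      have h2 : ⟪e, xx e p⟫ = 0 := yy_xx he p
      rw [h2, mul_zero]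
    · unfold Psi
      rw [smul_smul, mul_inv_cancel₀ h1, one_smul]
      unfold xx
      abel

theorem isConnected_Wd (hn : 2 ≤ n) {e : Euc n} (he : ‖e‖ = 1) {g : ℝ} (hg : 8 ≤ g) :
    IsPathConnected (Wd e g) := by
  have hall : ∀ p ∈ Wd e g, Tg e g p := by
    intro p hp
    obtain ⟨w, a, hw, hew, ha, hpe⟩ := exists_Psi hn he p
    rw [mem_Wd he hg] at hp
    have h1 : ss e p = a ^ 2 := by
      rw [hpe]
      exact ss_Psi he hw hew _ _
    rw [h1] at hp
    rw [hpe]
    exact all_joined he hw hew hg ha hp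
  have hsub : Metric.sphere (cen e g) (g / 2 + 8) ⊆ Wd e g := by
    intro p hp
    refine ⟨Metric.sphere_subset_closedBall hp, fun h => ?_⟩
    rw [mem_sphere_iff_norm] at hp
    linarith [Ob_sub he hg h]
  have hsph : IsPathConnected (Metric.sphere (cen e g) (g / 2 + 8)) := by
    refine isPathConnected_sphere ?_ _ (by linarith)
    rw [← Module.finrank_eq_rank, finrank_euclideanSpace_fin]
    exact_mod_cast (by omega : 1 < n)
  obtain ⟨x₀, hx₀⟩ := hsph.nonempty
  refine ⟨x₀, hsub hx₀, fun {p} hp => ?_⟩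
  obtain ⟨q, hq, hj⟩ := hall p hp
  exact ((hsph.joinedIn x₀ hx₀ q hq).mono hsub).trans hj.symm

end

end Pool.Agent.KS6_90.PD
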