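import Pool.Agent.KS6_90.PD.Geo

/-!
# No light enters the bottle from outside (helper90)
-/

set_option autoImplicit false
open Set Filter Topology
open scoped RealInnerProductSpace ContDiff

namespace Pool.Agent.KS6_90.PD
open Pool.Agent.H800R2 Pool.Agent.N237.Pen

noncomputable section

variable {n : ℕ}

/-- the square of the angular momentum minus the focal term -/
def JJ (y b s m S : ℝ) : ℝ := b ^ 2 * s - 2 * b * y * m + y ^ 2 * S - b ^ 2

lemma JJ_flight (y b s m S t : ℝ) :
    JJ (y + t * b) b (s + 2 * t * m + t ^ 2 * S) (m + t * S) S = JJ y b s m S := by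
  unfold JJ; ring

lemma JJ_cross {y b s m S t : ℝ} (h : y + t * b = 0) :
    JJ y b s m S = b ^ 2 * ((s + 2 * t * m + t ^ 2 * S) - 1) := by
  have hy : y = - (t * b) := by linarith
  unfold JJ
  rw [hy]; ring

/-- the states outside the bottle: below the gate the point is outside the sphere, in the cap the
light does not cross the focal disc -/
def St (g y s J : ℝ) : Prop :=
  (y ≤ 0 → 0 ≤ ff g s y) ∧ (0 < y → uu s y ≤ 0 → 0 ≤ J)

/-- a flight -/
lemma flight_real {g y₀ b s₀ m S τ : ℝ} (hg : 0 < g) (hτ : 0 < τ)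
    (hG0 : 0 ≤ GG g s₀ y₀)
    (hG : ∀ t, 0 < t → t < τ → 0 < GG g (s₀ + 2 * t * m + t ^ 2 * S) (y₀ + t * b))
    (hH : ∀ t, 0 < t → t < τ → hh g (s₀ + 2 * t * m + t ^ 2 * S) (y₀ + t * b) < 0)
    (hst : St g y₀ s₀ (JJ y₀ b s₀ m S)) (htip : y₀ = 0 → s₀ = 1 → 0 < b) :
    St g (y₀ + τ * b) (s₀ + 2 * τ * m + τ ^ 2 * S) (JJ y₀ b s₀ m S) := by
  obtain ⟨a1, a2⟩ := hst
  obtain ⟨y, hy⟩ : ∃ y : ℝ → ℝ, y = fun t => y₀ + t * b := ⟨_, rfl⟩
  obtain ⟨s, hs⟩ : ∃ s : ℝ → ℝ, s = fun t => s₀ + 2 * t * m + t ^ 2 * S := ⟨_, rfl⟩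
  obtain ⟨J, hJ⟩ : ∃ J, J = JJ y₀ b s₀ m S := ⟨_, rfl⟩
  have hyc : Continuous y := by rw [hy]; fun_prop
  have hsc : Continuous s := by rw [hs]; fun_prop
  have hyt : ∀ t, y t = y₀ + t * b := fun t => by rw [hy]
  have hst' : ∀ t, s t = s₀ + 2 * t * m + t ^ 2 * S := fun t => by rw [hs]
  have hy0 : y 0 = y₀ := by rw [hyt]; ring
  have hs0 : s 0 = s₀ := by rw [hst']; ring
  have hG' : ∀ t, 0 < t → t < τ → 0 < GG g (s t) (y t) := fun t h1 h2 => by
    rw [hst', hyt]; exact hG t h1 h2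
  have hH' : ∀ t, 0 < t → t < τ → hh g (s t) (y t) < 0 := fun t h1 h2 => by
    rw [hst', hyt]; exact hH t h1 h2
  have hJc : ∀ t, y t = 0 → J = b ^ 2 * (s t - 1) := fun t ht => by
    rw [hJ, hst']; exact JJ_cross (by rw [← hyt]; exact ht)
  rw [← hyt, ← hst', ← hJ]
  rw [← hJ] at a2
  obtain ⟨f, hf⟩ : ∃ f : ℝ → ℝ, f = fun t => ff g (s t) (y t) := ⟨_, rfl⟩
  have hft : ∀ t, f t = ff g (s t) (y t) := fun t => by rw [hf]
  have hfc : Continuous f := by
    rw [hf]
    unfold ff
    fun_prop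
  obtain ⟨u, hu⟩ : ∃ u : ℝ → ℝ, u = fun t => uu (s t) (y t) := ⟨_, rfl⟩
  have hut : ∀ t, u t = uu (s t) (y t) := fun t => by rw [hu]
  have huc : Continuous u := by
    rw [hu]
    unfold uu
    fun_prop
  -- below the gate the sphere is not met
  have fne : ∀ t, 0 < t → t < τ → y t ≤ 0 → f t ≠ 0 := by
    intro t h1 h2 h3 h4
    have := hG' t h1 h2
    unfold GG at this
    rw [← hft, h4] at this
    nlinarith
  -- no change of the sign of `f` below the gate
  have nochange : ∀ t₁ t₂, 0 ≤ t₁ → t₁ < t₂ → t₂ ≤ τ → (∀ t, t₁ < t → t < t₂ → y t ≤ 0) →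
      0 < f t₁ → 0 ≤ f t₂ := by
    intro t₁ t₂ h1 h2 h3 h4 h5
    by_contra hcon
    push Not at hcon
    have h6 : (0 : ℝ) ∈ Icc (f t₂) (f t₁) := ⟨hcon.le, h5.le⟩
    obtain ⟨t, ht, h7⟩ := intermediate_value_Icc' h2.le hfc.continuousOn h6
    have h8 : t₁ < t := lt_of_le_of_ne ht.1 fun h => by rw [← h] at h7; linarith
    have h9 : t < t₂ := lt_of_le_of_ne ht.2 fun h => by rw [h] at h7; linarith
    exact fne t (by linarith) (by linarith) (h4 t h8 h9) h7
  -- the start
  have start : y₀ ≤ 0 → 0 ≤ f 0 := fun h => by rw [hft, hy0, hs0]; exact a1 h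
  have start' : y₀ ≤ 0 → (y₀ < 0 ∨ b ≤ 0) → 0 < f 0 := by
    intro h h'
    refine lt_of_le_of_ne (start h) fun h1 => ?_
    have h2 := hG0
    unfold GG at h2
    have h3 : ff g s₀ y₀ = 0 := by rw [hft, hy0, hs0] at h1; exact h1.symm
    rw [h3] at h2
    have h4 : y₀ = 0 := by nlinarith
    have h5 : s₀ = 1 := by
      unfold ff at h3
      rw [h4] at h3
      linarith
    have h6 := htip h4 h5
    rcases h' with h' | h' <;> linarith
  -- in the cap
  have cap : ∀ t₂, 0 < t₂ → t₂ ≤ τ → (∀ t, 0 < t → t < t₂ → 0 < y t) → u t₂ ≤ 0 → u 0 ≤ 0 := by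
    intro t₂ h1 h2 h3 h4
    by_contra hcon
    push Not at hcon
    obtain ⟨v, hv⟩ : ∃ v, v = min (u 0) 1 / 2 := ⟨_, rfl⟩
    have hv0 : 0 < v := by rw [hv]; positivity
    have hv1 : v < u 0 := by
      have := min_le_left (u 0) 1
      rw [hv]; linarith
    have hv2 : v ≤ 1 := by
      have := min_le_right (u 0) 1
      rw [hv]; linarith
    have h6 : v ∈ Icc (u t₂) (u 0) := ⟨by linarith, hv1.le⟩
    obtain ⟨t, ht, h7⟩ := intermediate_value_Icc' h1.le huc.continuousOn h6
    have h8 : 0 < t := lt_of_le_of_ne ht.1 fun h => by rw [← h] at h7; linarith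
    have h9 : t < t₂ := lt_of_le_of_ne ht.2 fun h => by rw [h] at h7; linarith
    have h10 := hH' t h8 (by linarith)
    unfold hh at h10
    rw [cc_zero hg (h3 t h8 h9).le, ← hut, h7] at h10
    nlinarith
  -- crossing the gate from above
  have crossD : 0 < y₀ → ∀ ts, 0 < ts → ts ≤ τ → y ts = 0 → b < 0 → 0 ≤ f ts := by
    intro h1 ts h2 h3 h4 hb
    by_contra hcon
    push Not at hcon
    have h5 : s ts < 1 := by
      rw [hft, h4] at hcon
      unfold ff at hcon
      linarith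
    have h6 : u 0 ≤ 0 := by
      refine cap ts h2 h3 (fun t h7 h8 => ?_) ?_
      · rw [hyt]
        rw [hyt] at h4
        nlinarith
      · rw [hut, h4]
        unfold uu
        linarith
    have h7 := a2 h1 (by rw [hut, hy0, hs0] at h6; exact h6)
    rw [hJc ts h4] at h7
    have h8 : 0 < b ^ 2 := by nlinarith
    have := nonneg_of_mul_nonneg_right h7 h8
    linarith
  refine ⟨fun hyτ => ?_, fun hyτ huτ => ?_⟩
  · rw [← hft]
    rcases le_or_gt y₀ 0 with h1 | h1
    · -- the whole path is below the gate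
      rcases lt_or_ge 0 b with hb | hb
      · have h2 : y₀ < 0 := by rw [hyt] at hyτ; nlinarith
        refine nochange 0 τ le_rfl hτ le_rfl (fun t h3 h4 => ?_) (start' h1 (Or.inl h2))
        rw [hyt] at hyτ ⊢
        nlinarith
      · refine nochange 0 τ le_rfl hτ le_rfl (fun t h3 h4 => ?_) (start' h1 (Or.inr hb))
        rw [hyt]
        nlinarith
    · have hb : b < 0 := by
        rw [hyt] at hyτ
        by_contra hcon
        push Not at hcon
        nlinarith
      obtain ⟨ts, hts⟩ : ∃ ts, ts = -y₀ / b := ⟨_, rfl⟩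
      have hyts : y ts = 0 := by rw [hyt, hts, div_mul_cancel₀ _ hb.ne]; ring
      have hts0 : 0 < ts := by rw [hts]; exact div_pos_of_neg_of_neg (by linarith) hb
      have htsτ : ts ≤ τ := by
        by_contra hcon
        push Not at hcon
        rw [hyt] at hyτ hyts
        nlinarith
      have h2 := crossD h1 ts hts0 htsτ hyts hb
      rcases htsτ.eq_or_lt with h3 | h3
      · rw [← h3]; exact h2
      · have h4 : 0 < f ts := lt_of_le_of_ne h2 (fne ts hts0 h3 hyts.le).symm
        refine nochange ts τ hts0.le h3 le_rfl (fun t h5 _ => ?_) h4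
        rw [hyt] at hyts ⊢
        nlinarith
  · rcases lt_trichotomy y₀ 0 with h1 | h1 | h1
    · have hb : 0 < b := by
        rw [hyt] at hyτ
        by_contra hcon
        push Not at hcon
        nlinarith
      obtain ⟨ts, hts⟩ : ∃ ts, ts = -y₀ / b := ⟨_, rfl⟩
      have hyts : y ts = 0 := by rw [hyt, hts, div_mul_cancel₀ _ hb.ne']; ring
      have hts0 : 0 < ts := by rw [hts]; exact div_pos (by linarith) hb
      have htsτ : ts < τ := by
        by_contra hcon
        push Not at hcon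
        rw [hyt] at hyτ hyts
        nlinarith
      have h2 : 0 ≤ f ts := by
        refine nochange 0 ts le_rfl hts0 htsτ.le (fun t _ h4 => ?_) (start' h1.le (Or.inl h1))
        rw [hyt] at hyts ⊢
        nlinarith
      rw [hJc ts hyts]
      refine mul_nonneg (sq_nonneg _) ?_
      rw [hft, hyts] at h2
      unfold ff at h2
      linarith
    · rw [hJc 0 (by rw [hy0, h1]), hs0]
      refine mul_nonneg (sq_nonneg _) ?_
      have h2 := a1 h1.le
      rw [h1] at h2
      unfold ff at h2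
      linarith
    · refine a2 h1 ?_
      have h2 : u 0 ≤ 0 := by
        refine cap τ hτ le_rfl (fun t h3 h4 => ?_) (by rw [hut]; exact huτ)
        rw [hyt] at hyτ ⊢
        rcases le_total 0 b with hb | hb
        · nlinarith
        · nlinarith
      rw [hut, hy0, hs0] at h2
      exact h2

/-- arrival states of the photon -/
def Arr (e : Euc n) (g : ℝ) (p v : Euc n) : Prop :=
  St g (yy e p) (ss e p) (JJ (yy e p) (yy e v) (ss e p) (⟪p, v⟫ - yy e p * yy e v) (ss e v))

/-- initial states of a flight -/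
def Start (e : Euc n) (g : ℝ) (p v : Euc n) : Prop :=
  0 ≤ BB e g p ∧ Arr e g p v ∧ (yy e p = 0 → ss e p = 1 → 0 < yy e v)

lemma flight {Ω : Set (Euc n)} {e : Euc n} {g : ℝ} (hg : 8 ≤ g) (he : ‖e‖ = 1) {p v : Euc n}
    {τ : ℝ} (hτ : 0 < τ) (hst : Start e g p v) (hin : ∀ t ∈ Ioo 0 τ, p + t • v ∈ Ω \ Ob e g) :
    Arr e g (p + τ • v) v := by
  obtain ⟨h1, h2, h3⟩ := hst
  have key := flight_real (g := g) (y₀ := yy e p) (b := yy e v) (s₀ := ss e p)
    (m := ⟪p, v⟫ - yy e p * yy e v) (S := ss e v) (by linarith) hτ h1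
    (fun t h4 h5 => by
      have := (not_Ob.1 (hin t ⟨h4, h5⟩).2).2
      unfold BB at this
      rwa [ss_line, yy_line] at this)
    (fun t h4 h5 => by
      have := (not_Ob.1 (hin t ⟨h4, h5⟩).2).1
      unfold HH at this
      rwa [ss_line, yy_line] at this) h2 h3
  unfold Arr
  have e1 : ⟪p + τ • v, v⟫ - yy e (p + τ • v) * yy e v
      = (⟪p, v⟫ - yy e p * yy e v) + τ * ss e v := by
    rw [inner_add_left, inner_smul_left, yy_line, real_inner_self_eq_norm_sq]
    unfold ss
    simp only [conj_trivial]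
    ring
  rw [e1, yy_line, ss_line, JJ_flight]
  exact key

/-- the inside of the cap is near the bottle -/
lemma cap_near {e : Euc n} (he : ‖e‖ = 1) {g : ℝ} (hg : 8 ≤ g) {p : Euc n} (hy : 0 < yy e p)
    (hu : uu (ss e p) (yy e p) ≤ 0) : ‖p - cen e g‖ < g / 2 + 7 := by
  have h1 := norm_sub_cen he g p
  have h2 := ss_nonneg he p
  unfold uu at hu
  have h3 : yy e p ≤ 3 := by nlinarith
  have h4 := norm_nonneg (p - cen e g)
  nlinarith

/-- the bounce -/
lemma bounce_start {Ω : Set (Euc n)} (hΩ : IsOpen Ω) {e : Euc n} {g : ℝ} (hg : 8 ≤ g)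
    (he : ‖e‖ = 1) (hD : Metric.closedBall (cen e g) (g / 2 + 8) ⊆ Ω) {q v ν : Euc n}
    (hq : q ∈ frontier (Ω \ Ob e g)) (hν : IsOuterNormal (Ω \ Ob e g) q ν) (hv : 0 < ⟪v, ν⟫)
    (h : Arr e g q v) : Start e g q (v - (2 * ⟪v, ν⟫) • ν) := by
  have hg0 : 0 < g := by linarith
  have hob : Ob e g ⊆ Ω := fun p hp => hD (by
    rw [mem_closedBall_iff_norm]
    linarith [Ob_sub he hg hp])
  obtain ⟨F, hF, rfl⟩ := hν
  have hO : IsOpen (Ω \ Ob e g) := hΩ.sdiff (isClosed_Ob e g)
  have hfr := frontier_diff hΩ hob hq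
  obtain ⟨h1, h2⟩ := h
  refine ⟨?_, ⟨h1, fun hy hu => ?_⟩, fun hy hs => ?_⟩
  · have hcl : q ∈ {x | 0 ≤ BB e g x} := by
      refine closure_minimal ?_ ?_ (frontier_subset_closure hq)
      · exact fun x hx => (not_Ob.1 hx.2).2.le
      · exact isClosed_le continuous_const (contDiff_BB e g).continuous
    exact hcl
  · -- on the cap
    have hqΩ : q ∈ Ω := hD (by
      rw [mem_closedBall_iff_norm]
      linarith [cap_near he hg hy hu])
    have hphi : HH e g q = 0 := by
      rcases hfr with h | h | h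
      · exact absurd hqΩ (fun hc => by rw [hΩ.frontier_eq] at h; exact h.1.2 hc)
      · exact h.2
      · exfalso
        have := h.2
        unfold BB GG at this
        nlinarith [sq_nonneg (ff g (ss e q) (yy e q))]
    have hD' := defFun_HH hΩ he hg hqΩ hphi
    have hnu := hF.normal_unique hD' hO hq
    rw [hnu] at hv ⊢
    have hu0 : uu (ss e q) (yy e q) = 0 := by
      have h5 := hphi
      unfold HH hh at h5
      rw [cc_zero hg0 hy.le] at h5
      rcases mul_eq_zero.1 (by linarith : uu (ss e q) (yy e q) * (3 - uu (ss e q) (yy e q)) = 0)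
        with h6 | h6
      · exact h6
      · linarith
    have hN : gradient (HH e g) q = (3 / 5 : ℝ) • xx e q + (2 * yy e q / 3) • e := by
      apply grad_eq
      intro u
      rw [grad_HH, hu0, dc_zero hg0 hy.le, inner_add_left, inner_smul_left, inner_smul_left]
      unfold xx
      rw [inner_sub_left, inner_smul_left]
      simp only [conj_trivial]
      change _ = 3 / 5 * (⟪q, u⟫ - yy e q * yy e u) + 2 * yy e q / 3 * yy e u
      ring
    obtain ⟨α, hα⟩ : ∃ α, α = ‖gradient (HH e g) q‖⁻¹ := ⟨_, rfl⟩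
    have hne : gradient (HH e g) q ≠ 0 := hD'.2.1
    have hαn : α ^ 2 * ‖gradient (HH e g) q‖ ^ 2 = 1 := by
      rw [hα, ← mul_pow, inv_mul_cancel₀ (norm_ne_zero_iff.2 hne), one_pow]
    rw [← hα] at hv ⊢
    obtain ⟨y, hy'⟩ : ∃ y, y = yy e q := ⟨_, rfl⟩
    obtain ⟨b, hb⟩ : ∃ b, b = yy e v := ⟨_, rfl⟩
    obtain ⟨s, hs⟩ : ∃ s, s = ss e q := ⟨_, rfl⟩
    obtain ⟨m, hm⟩ : ∃ m, m = ⟪q, v⟫ - yy e q * yy e v := ⟨_, rfl⟩
    obtain ⟨S, hS⟩ : ∃ S, S = ss e v := ⟨_, rfl⟩
    have hJ := h2 hy hu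
    rw [← hm, ← hy', ← hb, ← hs, ← hS] at hJ
    -- the normal vector
    have hxe : ⟪xx e q, e⟫ = 0 := by
      have := yy_xx he q
      unfold yy at this
      rwa [real_inner_comm] at this
    have hxx : ‖xx e q‖ ^ 2 = s := by
      have h5 := ss_xx he q
      unfold ss at h5
      rw [yy_xx he] at h5
      rw [hs]
      unfold ss
      linarith
    have hNn : ‖gradient (HH e g) q‖ ^ 2 = 9 * s / 25 + 4 * y ^ 2 / 9 := by
      rw [hN, norm_add_sq_real, norm_smul, norm_smul, inner_smul_left, inner_smul_right, hxe, he,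
        mul_pow, mul_pow, hxx, Real.norm_eq_abs, Real.norm_eq_abs, sq_abs, sq_abs, ← hy']
      simp
      ring
    have hvN : ⟪v, gradient (HH e g) q⟫ = 3 * m / 5 + 2 * y / 3 * b := by
      rw [hN, inner_add_right, inner_smul_right, inner_smul_right]
      unfold xx
      rw [inner_sub_right, inner_smul_right]
      have e1 : ⟪v, e⟫ = b := by rw [hb]; exact real_inner_comm _ _
      have e2 : ⟪v, q⟫ = m + y * b := by
        rw [hm, hy', hb, real_inner_comm]; ring
      rw [e1, e2, ← hy']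
      ring
    have hyN : yy e (gradient (HH e g) q) = 2 * y / 3 := by
      rw [hN, yy_add, yy_smul, yy_smul, yy_xx he, yy_self he, ← hy']
      ring
    have hqN : ⟪q, gradient (HH e g) q⟫ = 3 * s / 5 + 2 * y / 3 * y := by
      rw [hN, inner_add_right, inner_smul_right, inner_smul_right, inner_xx, ← hs]
      have e1 : ⟪q, e⟫ = y := by rw [hy']; exact real_inner_comm _ _
      rw [e1, ← hy']
      ring
    -- the new velocity
    obtain ⟨κ, hκ⟩ : ∃ κ, κ = 2 * (α ^ 2 * (3 * m / 5 + 2 * y / 3 * b)) := ⟨_, rfl⟩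
    have hnew : v - (2 * ⟪v, α • gradient (HH e g) q⟫) • α • gradient (HH e g) q
        = v + (-κ) • gradient (HH e g) q := by
      rw [inner_smul_right, hvN, smul_smul, hκ, neg_smul, sub_eq_add_neg]
      congr 3
      ring
    rw [hnew, yy_line, ss_line, hyN, inner_add_right, inner_smul_right, hqN, hvN, ← hy', ← hb,
      ← hs, ← hS]
    have hSN : ss e (gradient (HH e g) q) = 9 * s / 25 := by
      unfold ss
      rw [hNn, hyN]; ring
    rw [hSN]
    have hm2 : ⟪q, v⟫ = m + y * b := by rw [hm, hy', hb]; ring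
    rw [hm2]
    -- the equation of the cap
    have hcap : s / 10 + y ^ 2 / 9 = 1 := by
      unfold uu at hu0
      rw [← hs, ← hy'] at hu0
      linarith
    have hk : κ * (9 * s / 25 + 4 * y ^ 2 / 9) = 2 * (3 * m / 5 + 2 * y / 3 * b) := by
      rw [hκ, ← hNn]
      linear_combination (2 * (3 * m / 5 + 2 * y / 3 * b)) * hαn
    have hgoal : JJ y (b + -κ * (2 * y / 3)) s
        (m + y * b + -κ * (3 * s / 5 + 2 * y / 3 * y) - y * (b + -κ * (2 * y / 3)))
        (S + 2 * -κ * (3 * m / 5 + 2 * y / 3 * b - b * (2 * y / 3)) + (-κ) ^ 2 * (9 * s / 25))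
        = JJ y b s m S := by
      unfold JJ
      have hs' : s = 10 - 10 * y ^ 2 / 9 := by linarith
      rw [hs'] at hk ⊢
      linear_combination (-y ^ 2 * κ / 9) * hk
    rw [hgoal]
    exact hJ
  · -- at the lip
    have hg0' : BB e g q = 0 := by unfold BB GG ff; rw [hy, hs]; norm_num
    have hqΩ : q ∈ Ω := hob (Or.inr hg0'.le)
    have hD' := defFun_BB hΩ he hg hqΩ hg0'
    have hnu := hF.normal_unique hD' hO hq
    rw [hnu] at hv ⊢
    have hN : gradient (fun q => -BB e g q) q = (-1 : ℝ) • e := by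
      have h7 : gradient (BB e g) q = e := by
        apply grad_eq
        intro u
        rw [grad_BB]
        have h8 : ff g (ss e q) (yy e q) = 0 := by unfold ff; rw [hy, hs]; norm_num
        rw [h8]
        change _ = yy e u
        ring
      rw [grad_neg_BB, h7, neg_smul, one_smul]
    have hN2 : ‖gradient (fun q => -BB e g q) q‖⁻¹ • gradient (fun q => -BB e g q) q = -e := by
      rw [hN, norm_smul, he, mul_one, smul_smul]
      norm_num
    rw [hN2] at hv ⊢
    have e1 : ⟪v, -e⟫ = -yy e v := by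
      rw [inner_neg_right, real_inner_comm]; rfl
    rw [e1] at hv ⊢
    have e2 : v - (2 * -yy e v) • -e = v + (-(2 * yy e v)) • e := by
      rw [smul_neg, sub_neg_eq_add]
      congr 2
      ring
    rw [e2, yy_line, yy_self he]
    linarith

lemma photon {Ω : Set (Euc n)} (hΩ : IsOpen Ω) {e : Euc n} {g : ℝ} (hg : 8 ≤ g)
    (he : ‖e‖ = 1) (hD : Metric.closedBall (cen e g) (g / 2 + 8) ⊆ Ω) {p v q : Euc n} {t : ℝ}
    (h : Photon (Ω \ Ob e g) p v t q) (hst : Start e g p v) :
    yy e q ≤ 0 → 0 ≤ ff g (ss e q) (yy e q) := by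
  induction h with
  | fly p v t ht hin =>
    have harr : Arr e g (p + t • v) v := by
      rcases ht.eq_or_lt with h0 | h0
      · rw [← h0, zero_smul, add_zero]; exact hst.2.1
      · exact flight hg he h0 hst fun s hs => hin s ⟨hs.1, hs.2.le⟩
    exact harr.1
  | bounce p v ν q τ t hτ hin hb hν hv _ ih =>
    exact ih (bounce_start hΩ hg he hD hb hν hv (flight hg he hτ hst hin))

/-- **No light enters the bottle.** -/
theorem dark {Ω : Set (Euc n)} (hΩ : IsOpen Ω) {e : Euc n} {g : ℝ} (hg : 8 ≤ g)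
    (he : ‖e‖ = 1) (hD : Metric.closedBall (cen e g) (g / 2 + 8) ⊆ Ω) {P v q : Euc n} {t : ℝ}
    (hP : P ∈ Ω \ Ob e g) (hPD : P ∉ Metric.closedBall (cen e g) (g / 2 + 8))
    (h : Photon (Ω \ Ob e g) P v t q) : q ∉ Metric.ball (cen e g) (g / 2 - 1) := by
  intro hq
  rw [mem_ball_iff_norm] at hq
  rw [mem_closedBall_iff_norm, not_le] at hPD
  obtain ⟨h1, h2, -⟩ := ball_dark he hg hq
  have h3 := photon hΩ hg he hD h ⟨(not_Ob.1 hP.2).2.le, ⟨fun _ => ?_, fun hy hu => ?_⟩,
    fun hy hs => ?_⟩ h1.le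
  · linarith
  · rw [ff_eq he]
    nlinarith
  · have := cap_near he hg hy hu
    linarith
  · have h4 := norm_sub_cen he g P
    rw [hy, hs] at h4
    nlinarith

end

end Pool.Agent.KS6_90.PD
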