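import Pool.Agent.KS6_90.PD.Basic

/-!
# Removing the cap and the bottle from a domain: the boundary (helper90)
-/

set_option autoImplicit false
open Set Filter Topology
open scoped RealInnerProductSpace ContDiff

namespace Pool.Agent.KS6_90.PD
open Pool.Agent.H800R2 Pool.Agent.N237.Pen

noncomputable section

variable {n : ℕ}

/-- the centre of the bottle -/
def cen (e : Euc n) (g : ℝ) : Euc n := (-(g / 2)) • e

lemma norm_sub_cen {e : Euc n} (he : ‖e‖ = 1) (g : ℝ) (p : Euc n) :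
    ‖p - cen e g‖ ^ 2 = ss e p + (yy e p + g / 2) ^ 2 := by
  have h1 : p - cen e g = p + (g / 2) • e := by
    unfold cen; rw [neg_smul, sub_neg_eq_add]
  rw [h1, norm_add_sq_real, norm_smul, inner_smul_right, he, Real.norm_eq_abs, mul_one, sq_abs]
  have h2 : ⟪p, e⟫ = yy e p := real_inner_comm _ _
  rw [h2]
  unfold ss
  ring

lemma abs_yy_le {e : Euc n} (he : ‖e‖ = 1) (g : ℝ) (p : Euc n) :
    |yy e p + g / 2| ≤ ‖p - cen e g‖ := by
  have h1 := norm_sub_cen he g p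
  have h2 := ss_nonneg he p
  exact abs_le_of_sq_le_sq (by linarith) (norm_nonneg _)

lemma ff_eq {e : Euc n} (he : ‖e‖ = 1) (g : ℝ) (p : Euc n) :
    ff g (ss e p) (yy e p) = ‖p - cen e g‖ ^ 2 - 1 - g ^ 2 / 4 := by
  rw [norm_sub_cen he]
  unfold ff
  ring

lemma Ob_sub {e : Euc n} (he : ‖e‖ = 1) {g : ℝ} (hg : 8 ≤ g) {p : Euc n} (hp : p ∈ Ob e g) :
    ‖p - cen e g‖ < g / 2 + 7 := by
  have h1 := norm_sub_cen he g p
  have h2 := ss_nonneg he p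
  have h3 := abs_le.1 (abs_yy_le he g p)
  obtain ⟨d, hd⟩ : ∃ d, d = ‖p - cen e g‖ := ⟨_, rfl⟩
  have hd0 : 0 ≤ d := by rw [hd]; exact norm_nonneg _
  by_contra hcon
  push Not at hcon
  rw [← hd] at hcon h1 h3
  rcases hp with h | h
  · obtain ⟨b1, b2, b3⟩ := hh_bounds (h : 0 ≤ hh g (ss e p) (yy e p))
    obtain ⟨y, hy⟩ : ∃ y, y = yy e p := ⟨_, rfl⟩
    rw [← hy] at b1 b2 b3 h1
    unfold uu at b2 b3
    have hy6 : y ≤ 6 := by nlinarith
    nlinarith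
  · have h' : ff g (ss e p) (yy e p) ^ 2 + yy e p ≤ 0 := h
    rw [ff_eq he, ← hd] at h'
    have h4 : 9 * d ≤ d ^ 2 - 1 - g ^ 2 / 4 := by nlinarith
    have h5 : (9 * d) ^ 2 ≤ (d ^ 2 - 1 - g ^ 2 / 4) ^ 2 :=
      pow_le_pow_left₀ (by linarith) h4 2
    nlinarith

/-- the ball in the bottle -/
lemma ball_dark {e : Euc n} (he : ‖e‖ = 1) {g : ℝ} (hg : 8 ≤ g) {p : Euc n}
    (hp : ‖p - cen e g‖ < g / 2 - 1) :
    yy e p < 0 ∧ ff g (ss e p) (yy e p) < 0 ∧ p ∉ Ob e g := by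
  have h3 := abs_le.1 (abs_yy_le he g p)
  obtain ⟨d, hd⟩ : ∃ d, d = ‖p - cen e g‖ := ⟨_, rfl⟩
  have hd0 : 0 ≤ d := by rw [hd]; exact norm_nonneg _
  have hf := ff_eq he g p
  rw [← hd] at hp h3 hf
  have hy : yy e p < -1 := by linarith [h3.2]
  have hf1 : ff g (ss e p) (yy e p) < -g := by
    rw [hf]
    nlinarith
  refine ⟨by linarith, by linarith, ?_⟩
  rintro (h | h)
  · obtain ⟨b1, -, -⟩ := hh_bounds (h : 0 ≤ hh g (ss e p) (yy e p))
    nlinarith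
  · have h' : ff g (ss e p) (yy e p) ^ 2 + yy e p ≤ 0 := h
    nlinarith [h3.1]

lemma isClosed_Ob (e : Euc n) (g : ℝ) : IsClosed (Ob e g) :=
  (isClosed_le continuous_const (contDiff_HH e g).continuous).union
    (isClosed_le (contDiff_BB e g).continuous continuous_const)

lemma isCompact_Ob {e : Euc n} (he : ‖e‖ = 1) {g : ℝ} (hg : 8 ≤ g) : IsCompact (Ob e g) := by
  refine Metric.isCompact_of_isClosed_isBounded (isClosed_Ob e g) ?_
  refine (Metric.isBounded_ball (x := cen e g) (r := g / 2 + 7)).subset fun p hp => ?_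
  rw [mem_ball_iff_norm]
  exact Ob_sub he hg hp

lemma not_Ob {e p : Euc n} {g : ℝ} : p ∉ Ob e g ↔ HH e g p < 0 ∧ 0 < BB e g p := by
  unfold Ob
  simp only [mem_ofPred_eq, not_or, not_le]

lemma defFun_HH {Ω : Set (Euc n)} (hΩ : IsOpen Ω) {e p : Euc n} {g : ℝ} (he : ‖e‖ = 1)
    (hg : 8 ≤ g) (hp : p ∈ Ω) (h : HH e g p = 0) : IsDefFun (Ω \ Ob e g) p (HH e g) := by
  have hB : 0 < BB e g p := GG_pos_of_hh hg (le_of_eq h.symm : 0 ≤ hh g (ss e p) (yy e p))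
  refine ⟨contDiff_HH e g, grad_HH_ne hg he h, ?_⟩
  filter_upwards [(contDiff_BB e g).continuous.continuousAt.eventually (lt_mem_nhds hB),
    hΩ.mem_nhds hp] with q h1 h2
  rw [Set.mem_sdiff, not_Ob]
  exact ⟨fun hq => hq.2.1, fun hq => ⟨h2, hq, h1⟩⟩

lemma grad_neg_BB (e p : Euc n) (g : ℝ) :
    gradient (fun q => -BB e g q) p = -gradient (BB e g) p := by
  unfold gradient
  rw [fderiv_fun_neg, map_neg]

lemma defFun_BB {Ω : Set (Euc n)} (hΩ : IsOpen Ω) {e p : Euc n} {g : ℝ} (he : ‖e‖ = 1)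
    (hg : 8 ≤ g) (hp : p ∈ Ω) (h : BB e g p = 0) :
    IsDefFun (Ω \ Ob e g) p (fun q => -BB e g q) := by
  have hH : HH e g p < 0 := hh_neg_of_GG hg (le_of_eq h : GG g (ss e p) (yy e p) ≤ 0)
  refine ⟨(contDiff_BB e g).neg, ?_, ?_⟩
  · rw [grad_neg_BB]
    exact neg_ne_zero.2 (grad_BB_ne he h)
  filter_upwards [(contDiff_HH e g).continuous.continuousAt.eventually (gt_mem_nhds hH),
    hΩ.mem_nhds hp] with q h1 h2
  rw [Set.mem_sdiff, not_Ob]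
  exact ⟨fun hq => by linarith [hq.2.2], fun hq => ⟨h2, h1, by linarith⟩⟩

lemma frontier_diff {Ω : Set (Euc n)} (hΩ : IsOpen Ω) {e p : Euc n} {g : ℝ}
    (hob : Ob e g ⊆ Ω) (hp : p ∈ frontier (Ω \ Ob e g)) :
    (p ∈ frontier Ω ∧ p ∉ Ob e g) ∨ (p ∈ Ω ∧ HH e g p = 0) ∨ (p ∈ Ω ∧ BB e g p = 0) := by
  have hO : IsOpen (Ω \ Ob e g) := hΩ.sdiff (isClosed_Ob e g)
  rw [hO.frontier_eq] at hp
  obtain ⟨hc, hn⟩ := hp
  by_cases hpΩ : p ∈ Ω
  · right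
    have hcl : p ∈ {q | HH e g q ≤ 0 ∧ 0 ≤ BB e g q} := by
      refine closure_minimal ?_ ?_ hc
      · intro q hq
        have := not_Ob.1 hq.2
        exact ⟨this.1.le, this.2.le⟩
      · exact (isClosed_le (contDiff_HH e g).continuous continuous_const).inter
          (isClosed_le continuous_const (contDiff_BB e g).continuous)
    have hin : p ∈ Ob e g := by
      by_contra hcon
      exact hn ⟨hpΩ, hcon⟩
    rcases hin with h | h
    · exact Or.inl ⟨hpΩ, le_antisymm hcl.1 h⟩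
    · exact Or.inr ⟨hpΩ, le_antisymm h hcl.2⟩
  · left
    refine ⟨?_, fun h => hpΩ (hob h)⟩
    rw [hΩ.frontier_eq]
    exact ⟨closure_mono Set.sdiff_subset hc, hpΩ⟩

lemma defFun_old {Ω : Set (Euc n)} {e p : Euc n} {g : ℝ} {F : Euc n → ℝ} (hp : p ∉ Ob e g)
    (hF : IsDefFun Ω p F) : IsDefFun (Ω \ Ob e g) p F := by
  refine ⟨hF.1, hF.2.1, ?_⟩
  filter_upwards [hF.2.2, (isClosed_Ob e g).isOpen_compl.mem_nhds hp] with q h1 h2
  exact ⟨fun hq => h1.1 hq.1, fun hq => ⟨h1.2 hq, h2⟩⟩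

lemma smooth_diff {Ω : Set (Euc n)} (hΩ : IsOpen Ω) (hs : ∀ x ∈ frontier Ω, ∃ F, IsDefFun Ω x F)
    {e : Euc n} {g : ℝ} (he : ‖e‖ = 1) (hg : 8 ≤ g) (hob : Ob e g ⊆ Ω) :
    ∀ x ∈ frontier (Ω \ Ob e g), ∃ F, IsDefFun (Ω \ Ob e g) x F := by
  intro x hx
  rcases frontier_diff hΩ hob hx with h | h | h
  · obtain ⟨F, hF⟩ := hs x h.1
    exact ⟨F, defFun_old h.2 hF⟩
  · exact ⟨_, defFun_HH hΩ he hg h.1 h.2⟩
  · exact ⟨_, defFun_BB hΩ he hg h.1 h.2⟩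

end

end Pool.Agent.KS6_90.PD
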