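import Pool.Agent.KS6_90.PD.Mod

/-!
# Almost total darkness in every domain (helper90)
-/

set_option autoImplicit false
open Set Filter Topology MeasureTheory
open scoped RealInnerProductSpace ContDiff

namespace Pool.Agent.KS6_90.PD
open Pool.Agent.H800R2 Pool.Agent.N237.Pen

noncomputable section

variable {n : ℕ}

/-- the shell between the dark ball and the sphere -/
lemma volume_annulus (x : Euc n) {ρ κ : ℝ} (hρ : 0 < ρ) (hκ0 : 0 < κ) (hκ1 : κ < 1) :
    volume (Metric.closedBall x ρ \ Metric.ball x (κ * ρ))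
      ≤ ENNReal.ofReal (1 - κ ^ n) * volume (Metric.closedBall x ρ) := by
  have hsub : Metric.ball x (κ * ρ) ⊆ Metric.closedBall x ρ :=
    (Metric.ball_subset_ball (by nlinarith)).trans Metric.ball_subset_closedBall
  have hfin : volume (Metric.ball x (κ * ρ)) ≠ ⊤ := measure_ball_lt_top.ne
  rw [measure_sdiff hsub measurableSet_ball.nullMeasurableSet hfin, tsub_le_iff_right]
  have h1 : volume (Metric.ball x (κ * ρ))
      = ENNReal.ofReal (κ ^ n) * volume (Metric.closedBall x ρ) := by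
    rw [Measure.addHaar_ball_of_pos volume x (by positivity : 0 < κ * ρ),
      Measure.addHaar_closedBall volume x hρ.le, finrank_euclideanSpace_fin, mul_pow,
      ENNReal.ofReal_mul (by positivity), mul_assoc]
  rw [h1, ← add_mul, ← ENNReal.ofReal_add (by
    have : κ ^ n ≤ 1 := pow_le_one₀ hκ0.le hκ1.le
    linarith) (by positivity)]
  have h2 : 1 - κ ^ n + κ ^ n = 1 := by ring
  rw [h2, ENNReal.ofReal_one, one_mul]

/-- the dark ball can fill almost the whole ball -/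
lemma exists_g (n : ℕ) (V : ℝ) {η : ℝ} (hη : 0 < η) :
    ∃ g : ℝ, 8 ≤ g ∧ (1 - kap g ^ n) * V ≤ η := by
  have h1 : Tendsto kap atTop (𝓝 1) := by
    have h2 : Tendsto (fun g : ℝ => 1 - 9 / (g / 2 + 8)) atTop (𝓝 (1 - 0)) := by
      refine tendsto_const_nhds.sub ?_
      refine Tendsto.div_atTop tendsto_const_nhds ?_
      exact tendsto_atTop_add_const_right _ _ (tendsto_id.atTop_div_const two_pos)
    rw [sub_zero] at h2
    refine h2.congr' ?_
    filter_upwards [eventually_ge_atTop (8 : ℝ)] with g hg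
    unfold kap
    have : g / 2 + 8 ≠ 0 := by positivity
    field_simp
    ring
  have h3 : Tendsto (fun g => (1 - kap g ^ n) * V) atTop (𝓝 ((1 - 1 ^ n) * V)) :=
    (tendsto_const_nhds.sub (h1.pow n)).mul_const V
  rw [one_pow, sub_self, zero_mul] at h3
  obtain ⟨g, h4, h5⟩ := ((h3.eventually (gt_mem_nhds hη)).and (eventually_ge_atTop (8 : ℝ))).exists
  exact ⟨g, h5, h4.le⟩

/-- small balls -/
lemma exists_small (hn : 2 ≤ n) {U : Set (Euc n)} (hU : IsOpen U) {x : Euc n} (hx : x ∈ U)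
    {η δ : ℝ} (hη : 0 < η) (hδ : 0 < δ) : ∃ ρ : ℝ, 0 < ρ ∧ ρ < δ ∧ Metric.closedBall x ρ ⊆ U ∧
      volume (Metric.closedBall x ρ) ≤ ENNReal.ofReal η := by
  obtain ⟨r₀, hr₀, hb⟩ := Metric.isOpen_iff.1 hU x hx
  obtain ⟨b, hb'⟩ : ∃ b, b = (volume (Metric.ball (0 : Euc n) 1)).toReal := ⟨_, rfl⟩
  have hb0 : 0 ≤ b := by rw [hb']; exact ENNReal.toReal_nonneg
  have hbe : volume (Metric.ball (0 : Euc n) 1) = ENNReal.ofReal b := by
    rw [hb', ENNReal.ofReal_toReal measure_ball_lt_top.ne]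
  obtain ⟨ρ₁, hρ₁⟩ : ∃ ρ₁, ρ₁ = min 1 (η / (b + 1)) := ⟨_, rfl⟩
  have hρ₁0 : 0 < ρ₁ := by rw [hρ₁]; positivity
  have hρ₁1 : ρ₁ ≤ 1 := by rw [hρ₁]; exact min_le_left _ _
  have hρ₁2 : ρ₁ ≤ η / (b + 1) := by rw [hρ₁]; exact min_le_right _ _
  obtain ⟨ρ, hρ⟩ : ∃ ρ, ρ = min (r₀ / 2) (min (δ / 2) ρ₁) := ⟨_, rfl⟩
  have hρ0 : 0 < ρ := by rw [hρ]; positivity
  have h1 : ρ ≤ r₀ / 2 := by rw [hρ]; exact min_le_left _ _
  have h2 : ρ ≤ δ / 2 := by rw [hρ]; exact (min_le_right _ _).trans (min_le_left _ _)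
  have h3 : ρ ≤ ρ₁ := by rw [hρ]; exact (min_le_right _ _).trans (min_le_right _ _)
  refine ⟨ρ, hρ0, by linarith, (Metric.closedBall_subset_ball (by linarith)).trans hb, ?_⟩
  rw [Measure.addHaar_closedBall volume x hρ0.le, finrank_euclideanSpace_fin, hbe,
    ← ENNReal.ofReal_mul (by positivity)]
  apply ENNReal.ofReal_le_ofReal
  have h4 : ρ ^ n ≤ ρ := pow_le_of_le_one hρ0.le (by linarith) (by omega)
  have h5 : ρ ^ n * b ≤ η / (b + 1) * b :=
    mul_le_mul_of_nonneg_right (h4.trans (h3.trans hρ₁2)) hb0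
  have h6 : η / (b + 1) * b ≤ η := by
    rw [div_mul_eq_mul_div, div_le_iff₀ (by linarith)]
    nlinarith
  linarith

/-- finitely many disjoint balls which fill almost the whole open set -/
lemma exists_packing (hn : 2 ≤ n) {U : Set (Euc n)} (hU : IsOpen U) (hUf : volume U ≠ ⊤)
    {η : ℝ} (hη : 0 < η) : ∃ (s : Finset (Euc n)) (r : Euc n → ℝ),
      (∀ x ∈ s, 0 < r x ∧ Metric.closedBall x (r x) ⊆ U ∧
        volume (Metric.closedBall x (r x)) ≤ ENNReal.ofReal η) ∧
      (s : Set (Euc n)).PairwiseDisjoint (fun x => Metric.closedBall x (r x)) ∧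
      volume (U \ ⋃ x ∈ s, Metric.closedBall x (r x)) ≤ ENNReal.ofReal η := by
  classical
  obtain ⟨t, r, htc, htU, htr, ht0, htd⟩ :=
    Besicovitch.exists_disjoint_closedBall_covering_ae (volume : Measure (Euc n))
      (fun x => {ρ | Metric.closedBall x ρ ⊆ U ∧
        volume (Metric.closedBall x ρ) ≤ ENNReal.ofReal η}) U
      (fun x hx δ hδ => by
        obtain ⟨ρ, h1, h2, h3, h4⟩ := exists_small hn hU hx hη hδ
        exact ⟨ρ, ⟨h3, h4⟩, h1, h2⟩) (fun _ => 1) (fun _ _ => one_pos)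
  have : Countable t := htc.to_subtype
  obtain ⟨A, hA⟩ : ∃ A : Finset t → Set (Euc n),
      A = fun F => U \ ⋃ (x : t) (_ : x ∈ F), Metric.closedBall x.1 (r x.1) := ⟨_, rfl⟩
  have hmeas : ∀ F, MeasurableSet (A F) := fun F => by
    rw [hA]
    exact hU.measurableSet.diff (F.measurableSet_biUnion fun x _ => measurableSet_closedBall)
  have hanti : Antitone A := by
    intro F G hFG
    rw [hA]
    exact sdiff_subset_sdiff_right (biUnion_subset_biUnion_left hFG)
  have hlim := tendsto_measure_iInter_atTop (μ := (volume : Measure (Euc n)))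
    (fun F => (hmeas F).nullMeasurableSet) hanti
    ⟨∅, (measure_mono (by rw [hA]; exact Set.sdiff_subset)).trans_lt hUf.lt_top |>.ne⟩
  have hzero : volume (⋂ F, A F) = 0 := by
    refine measure_mono_null ?_ ht0
    intro p hp
    rw [mem_iInter] at hp
    refine ⟨?_, fun hm => ?_⟩
    · have := hp ∅
      rw [hA] at this
      exact this.1
    · simp only [mem_iUnion] at hm
      obtain ⟨x, hx, hpx⟩ := hm
      have := hp {⟨x, hx⟩}
      rw [hA] at this
      exact this.2 (by simpa using hpx)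
  rw [hzero] at hlim
  obtain ⟨F, hF⟩ := (hlim.eventually (gt_mem_nhds (ENNReal.ofReal_pos.2 hη))).exists
  refine ⟨F.image Subtype.val, r, fun x hx => ?_, fun x hx y hy hxy => ?_, ?_⟩
  · rw [Finset.mem_image] at hx
    obtain ⟨⟨z, hz⟩, -, rfl⟩ := hx
    have := htr z hz
    exact ⟨this.2.1, this.1.1, this.1.2⟩
  · rw [Finset.coe_image] at hx hy
    obtain ⟨⟨z, hz⟩, -, rfl⟩ := hx
    obtain ⟨⟨z', hz'⟩, -, rfl⟩ := hy
    exact htd hz hz' hxy
  · have e1 : (⋃ x ∈ F.image Subtype.val, Metric.closedBall x (r x))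
        = ⋃ (x : t) (_ : x ∈ F), Metric.closedBall x.1 (r x.1) := by
      rw [Finset.set_biUnion_finset_image]
    rw [e1]
    have := hF.le
    rw [hA] at this
    exact this

/-- **Almost total darkness.** -/
theorem main (hn : 2 ≤ n) {Ω U : Set (Euc n)} (hΩ : IsSmoothDomain Ω) (hU : IsOpen U)
    (hUΩ : U ⊆ Ω) {ε : ℝ} (hε : 0 < ε) : ∃ (K : Set (Euc n)) (m : ℕ) (V : Fin m → Set (Euc n)),
      IsCompact K ∧ K ⊆ U ∧ volume K ≤ ENNReal.ofReal ε ∧ IsSmoothDomain (Ω \ K) ∧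
      (∀ i, IsOpen (V i) ∧ (V i).Nonempty ∧ V i ⊆ U \ K ∧ volume (V i) ≤ ENNReal.ofReal ε) ∧
      (∀ i j, i ≠ j → Disjoint (V i) (V j)) ∧
      volume (U \ ⋃ i, V i) ≤ ENNReal.ofReal (ε / 2) ∧
      ∀ P ∈ Ω \ K, ∀ i j, i ≠ j → (∀ t, Disjoint (front (Ω \ K) P t) (V i)) ∨
        ∀ t, Disjoint (front (Ω \ K) P t) (V j) := by
  classical
  have hUf : volume U ≠ ⊤ := (hΩ.isBounded.subset hUΩ).measure_lt_top.ne
  obtain ⟨e, he⟩ : ∃ e : Euc n, ‖e‖ = 1 := by
    have : NeZero n := ⟨by omega⟩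
    exact ⟨EuclideanSpace.single 0 1, by simp⟩
  obtain ⟨η, hη⟩ : ∃ η, η = ε / 4 := ⟨_, rfl⟩
  have hη0 : 0 < η := by rw [hη]; positivity
  obtain ⟨s, r, hs1, hs2, hs3⟩ := exists_packing hn hU hUf hη0
  obtain ⟨g, hg, hgV⟩ := exists_g n (volume U).toReal hη0
  have hs1' : ∀ x ∈ s, 0 < r x ∧ Metric.closedBall x (r x) ⊆ Ω :=
    fun x hx => ⟨(hs1 x hx).1, (hs1 x hx).2.1.trans hUΩ⟩
  obtain ⟨hk0, hk1⟩ := kap_bounds hg
  -- the shells
  obtain ⟨A, hA⟩ : ∃ A : Set (Euc n), A = ⋃ x ∈ s,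
      (Metric.closedBall x (r x) \ Metric.ball x (kap g * r x)) := ⟨_, rfl⟩
  have hAvol : volume A ≤ ENNReal.ofReal η := by
    calc volume A ≤ ∑ x ∈ s, volume (Metric.closedBall x (r x) \ Metric.ball x (kap g * r x)) := by
          rw [hA]; exact measure_biUnion_finset_le _ _
      _ ≤ ∑ x ∈ s, ENNReal.ofReal (1 - kap g ^ n) * volume (Metric.closedBall x (r x)) :=
          Finset.sum_le_sum fun x hx => volume_annulus x (hs1 x hx).1 hk0 hk1
      _ = ENNReal.ofReal (1 - kap g ^ n) * volume (⋃ x ∈ s, Metric.closedBall x (r x)) := by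
          rw [← Finset.mul_sum, measure_biUnion_finset hs2 fun x _ => measurableSet_closedBall]
      _ ≤ ENNReal.ofReal (1 - kap g ^ n) * volume U := by
          gcongr
          exact iUnion₂_subset fun x hx => (hs1 x hx).2.1
      _ = ENNReal.ofReal ((1 - kap g ^ n) * (volume U).toReal) := by
          rw [ENNReal.ofReal_mul, ENNReal.ofReal_toReal hUf]
          have : kap g ^ n ≤ 1 := pow_le_one₀ hk0.le hk1.le
          linarith
      _ ≤ ENNReal.ofReal η := ENNReal.ofReal_le_ofReal hgV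
  have hKA : Mds e g r s ⊆ A := by
    rw [hA]
    refine iUnion₂_mono fun x hx p hp => ⟨?_, fun h => ?_⟩
    · exact Metric.ball_subset_closedBall (md_sub he hg (hs1 x hx).1 hp)
    · exact disjoint_left.1 (dark_ball_disjoint he hg (hs1 x hx).1) h hp
  have hηε : ENNReal.ofReal η ≤ ENNReal.ofReal ε := ENNReal.ofReal_le_ofReal (by linarith)
  have hbc : ∀ x ∈ s, Metric.ball x (kap g * r x) ⊆ Metric.closedBall x (r x) := fun x hx =>
    (Metric.ball_subset_ball (by nlinarith [(hs1 x hx).1])).trans Metric.ball_subset_closedBall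
  obtain ⟨z, hz⟩ : ∃ z : Fin s.card → Euc n, z = fun i => (s.equivFin.symm i : Euc n) := ⟨_, rfl⟩
  have hzs : ∀ i, z i ∈ s := fun i => by rw [hz]; exact (s.equivFin.symm i).2
  have hzinj : Function.Injective z := fun i j hij => by
    rw [hz] at hij
    exact s.equivFin.symm.injective (Subtype.ext hij)
  have hzsurj : ∀ x ∈ s, ∃ i, z i = x := fun x hx => ⟨s.equivFin ⟨x, hx⟩, by rw [hz]; simp⟩
  refine ⟨Mds e g r s, s.card, fun i => Metric.ball (z i) (kap g * r (z i)), ?_, ?_,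
    (measure_mono hKA).trans (hAvol.trans hηε), smoothDomain_Mds he hg r hn hΩ s hs1' hs2,
    fun i => ⟨Metric.isOpen_ball, ?_, ?_, ?_⟩, fun i j hij => ?_, ?_, fun P hP i j hij => ?_⟩
  · exact s.isCompact_biUnion fun x hx => isCompact_md he hg (hs1 x hx).1
  · exact (Mds_sub he hg r fun x hx => (hs1 x hx).1).trans
      (iUnion₂_subset fun x hx => (hs1 x hx).2.1)
  · exact Metric.nonempty_ball.2 (mul_pos hk0 (hs1 _ (hzs i)).1)
  · intro p hpx
    refine ⟨(hs1 _ (hzs i)).2.1 (hbc _ (hzs i) hpx), fun hm => ?_⟩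
    unfold Mds at hm
    simp only [mem_iUnion] at hm
    obtain ⟨y, hy, hpy⟩ := hm
    by_cases hxy : z i = y
    · rw [← hxy] at hpy
      exact disjoint_left.1 (dark_ball_disjoint he hg (hs1 _ (hzs i)).1) hpx hpy
    · exact disjoint_left.1 (hs2 (hzs i) hy hxy) (hbc _ (hzs i) hpx)
        (Metric.ball_subset_closedBall (md_sub he hg (hs1 y hy).1 hpy))
  · exact (measure_mono (hbc _ (hzs i))).trans ((hs1 _ (hzs i)).2.2.trans hηε)
  · exact (hs2 (hzs i) (hzs j) (hzinj.ne hij)).mono (hbc _ (hzs i)) (hbc _ (hzs j))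
  · have hcover : U \ ⋃ i, Metric.ball (z i) (kap g * r (z i))
        ⊆ (U \ ⋃ x ∈ s, Metric.closedBall x (r x)) ∪ A := by
      rintro p ⟨hpU, hpW⟩
      by_cases h : p ∈ ⋃ x ∈ s, Metric.closedBall x (r x)
      · right
        simp only [mem_iUnion] at h
        obtain ⟨x, hx, hpx⟩ := h
        obtain ⟨i, rfl⟩ := hzsurj x hx
        rw [hA]
        simp only [mem_iUnion]
        exact ⟨z i, hx, hpx, fun hb => hpW (mem_iUnion.2 ⟨i, hb⟩)⟩
      · exact Or.inl ⟨hpU, h⟩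
    calc volume (U \ ⋃ i, Metric.ball (z i) (kap g * r (z i)))
        ≤ volume (U \ ⋃ x ∈ s, Metric.closedBall x (r x)) + volume A :=
          (measure_mono hcover).trans (measure_union_le _ _)
      _ ≤ ENNReal.ofReal η + ENNReal.ofReal η := by gcongr
      _ = ENNReal.ofReal (ε / 2) := by
          rw [← ENNReal.ofReal_add (by positivity) (by positivity), hη]
          congr 1; ring
  · by_cases h : P ∈ Metric.closedBall (z i) (r (z i))
    · right
      exact fun t => dark_Mds he hg r hΩ.isOpen hs1' hs2 hP (hzs j)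
        (fun hc => disjoint_left.1 (hs2 (hzs i) (hzs j) (hzinj.ne hij)) h hc) t
    · left
      exact fun t => dark_Mds he hg r hΩ.isOpen hs1' hs2 hP (hzs i) h t

/-- the dark part of `U` for a single point -/
theorem dark_part {Ω U K : Set (Euc n)} {m : ℕ} {V : Fin m → Set (Euc n)} {η : ENNReal}
    (hV : ∀ i, IsOpen (V i) ∧ V i ⊆ U \ K ∧ volume (V i) ≤ η)
    (hvol : volume (U \ ⋃ i, V i) ≤ η) {P : Euc n}
    (hP : ∀ i j, i ≠ j → (∀ t, Disjoint (front (Ω \ K) P t) (V i)) ∨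
        ∀ t, Disjoint (front (Ω \ K) P t) (V j)) :
    ∃ W : Set (Euc n), IsOpen W ∧ W ⊆ U \ K ∧ volume (U \ W) ≤ η + η ∧
      ∀ t, Disjoint (front (Ω \ K) P t) W := by
  by_cases h : ∃ i, ¬ ∀ t, Disjoint (front (Ω \ K) P t) (V i)
  · obtain ⟨i, hi⟩ := h
    refine ⟨⋃ j ∈ {j | j ≠ i}, V j, isOpen_biUnion fun j _ => (hV j).1,
      iUnion₂_subset fun j _ => (hV j).2.1, ?_, fun t => ?_⟩
    · have hsub : U \ ⋃ j ∈ {j | j ≠ i}, V j ⊆ (U \ ⋃ i, V i) ∪ V i := by
        rintro p ⟨hpU, hp⟩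
        by_cases hpi : p ∈ V i
        · exact Or.inr hpi
        · refine Or.inl ⟨hpU, fun hm => ?_⟩
          obtain ⟨j, hj⟩ := mem_iUnion.1 hm
          have hne : j ≠ i := fun h => hpi (h ▸ hj)
          exact hp (mem_iUnion₂.2 ⟨j, hne, hj⟩)
      exact (measure_mono hsub).trans ((measure_union_le _ _).trans (add_le_add hvol (hV i).2.2))
    · rw [disjoint_iUnion₂_right]
      intro j hj
      rcases hP i j (Ne.symm hj) with h | h
      · exact absurd h hi
      · exact h t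
  · push Not at h
    refine ⟨⋃ i, V i, isOpen_iUnion fun j => (hV j).1, iUnion_subset fun j => (hV j).2.1,
      hvol.trans le_self_add, fun t => ?_⟩
    rw [disjoint_iUnion_right]
    exact fun i => h i t

end

end Pool.Agent.KS6_90.PD
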