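import Pool.Agent.KS6_90.PD.Sim

/-!
# The obstacle in a given ball; finitely many obstacles (helper90)
-/

set_option autoImplicit false
open Set Filter Topology MeasureTheory
open scoped RealInnerProductSpace ContDiff

namespace Pool.Agent.KS6_90.PD
open Pool.Agent.H800R2 Pool.Agent.N237.Pen

noncomputable section

variable {n : ℕ}

/-- the obstacle (cap and bottle) in the ball with centre `x` and radius `ρ` -/
def md (e : Euc n) (g : ℝ) (x : Euc n) (ρ : ℝ) : Set (Euc n) :=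
  {p | cen e g + ((g / 2 + 8) / ρ) • (p - x) ∈ Ob e g}

/-- the ratio of the radii of the dark ball and of the ball of the obstacle -/
def kap (g : ℝ) : ℝ := (g / 2 - 1) / (g / 2 + 8)

section One

variable {e : Euc n} (he : ‖e‖ = 1) {g : ℝ} (hg : 8 ≤ g) {x : Euc n} {ρ : ℝ} (hρ : 0 < ρ)

include he hg hρ in
lemma md_sub : md e g x ρ ⊆ Metric.ball x ρ := by
  intro p hp
  have h1 := Ob_sub he hg hp
  rw [add_sub_cancel_left, norm_smul, Real.norm_of_nonneg (by positivity)] at h1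
  rw [mem_ball_iff_norm]
  have h2 : (g / 2 + 8) / ρ * ‖p - x‖ < g / 2 + 8 := by linarith
  rw [div_mul_eq_mul_div, div_lt_iff₀ hρ] at h2
  exact lt_of_mul_lt_mul_left h2 (by linarith)

lemma isClosed_md : IsClosed (md e g x ρ) :=
  (isClosed_Ob e g).preimage (by fun_prop)

include he hg hρ in
lemma isCompact_md : IsCompact (md e g x ρ) :=
  Metric.isCompact_of_isClosed_isBounded isClosed_md
    (Metric.isBounded_ball.subset (md_sub he hg hρ))

include hg in
lemma kap_bounds : 0 < kap g ∧ kap g < 1 := by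
  unfold kap
  constructor
  · apply div_pos <;> linarith
  · rw [div_lt_one (by linarith)]; linarith

include he hg hρ in
lemma dark_ball_disjoint : Disjoint (Metric.ball x (kap g * ρ)) (md e g x ρ) := by
  rw [disjoint_left]
  intro p hp hm
  rw [mem_ball_iff_norm] at hp
  refine (ball_dark he hg (p := cen e g + ((g / 2 + 8) / ρ) • (p - x)) ?_).2.2 hm
  rw [add_sub_cancel_left, norm_smul, Real.norm_of_nonneg (by positivity)]
  unfold kap at hp
  have h1 : (g / 2 + 8) / ρ * ‖p - x‖ < (g / 2 + 8) / ρ * ((g / 2 - 1) / (g / 2 + 8) * ρ) :=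
    mul_lt_mul_of_pos_left hp (by positivity)
  have h2 : (g / 2 + 8) / ρ * ((g / 2 - 1) / (g / 2 + 8) * ρ) = g / 2 - 1 := by
    field_simp
  linarith

/-- the similarity which maps the standard ball to the given ball -/
def bb (e : Euc n) (g : ℝ) (x : Euc n) (ρ : ℝ) : Euc n := x - (ρ / (g / 2 + 8)) • cen e g

include hg hρ in
lemma inv1 (p : Euc n) : aff (bb e g x ρ) (ρ / (g / 2 + 8))
    (cen e g + ((g / 2 + 8) / ρ) • (p - x)) = p := by
  have h1 : (ρ / (g / 2 + 8)) * ((g / 2 + 8) / ρ) = 1 := by field_simp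
  unfold aff bb
  rw [smul_add, smul_smul, h1, one_smul]
  abel

include hg hρ in
lemma inv2 (p : Euc n) : cen e g + ((g / 2 + 8) / ρ) •
    (aff (bb e g x ρ) (ρ / (g / 2 + 8)) p - x) = p := by
  have h1 : ((g / 2 + 8) / ρ) * (ρ / (g / 2 + 8)) = 1 := by field_simp
  unfold aff bb
  have e1 : x - (ρ / (g / 2 + 8)) • cen e g + (ρ / (g / 2 + 8)) • p - x
      = (ρ / (g / 2 + 8)) • (p - cen e g) := by module
  rw [e1, smul_smul, h1, one_smul]
  abel

include hg hρ in
lemma pull_md (Ω : Set (Euc n)) : aff (bb e g x ρ) (ρ / (g / 2 + 8)) ⁻¹' (Ω \ md e g x ρ)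
    = (aff (bb e g x ρ) (ρ / (g / 2 + 8)) ⁻¹' Ω) \ Ob e g := by
  ext p
  show aff (bb e g x ρ) (ρ / (g / 2 + 8)) p ∈ Ω ∧ ¬ (cen e g + ((g / 2 + 8) / ρ) •
    (aff (bb e g x ρ) (ρ / (g / 2 + 8)) p - x) ∈ Ob e g) ↔ _
  rw [inv2 hg hρ]
  rfl

include hg hρ in
lemma pull_ball {p : Euc n} {κ : ℝ} (h : ‖p - cen e g‖ ≤ κ * (g / 2 + 8)) :
    ‖aff (bb e g x ρ) (ρ / (g / 2 + 8)) p - x‖ ≤ κ * ρ := by
  have e1 : aff (bb e g x ρ) (ρ / (g / 2 + 8)) p - x
      = (ρ / (g / 2 + 8)) • (p - cen e g) := by unfold aff bb; module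
  rw [e1, norm_smul, Real.norm_of_nonneg (by positivity)]
  calc ρ / (g / 2 + 8) * ‖p - cen e g‖ ≤ ρ / (g / 2 + 8) * (κ * (g / 2 + 8)) :=
        mul_le_mul_of_nonneg_left h (by positivity)
    _ = κ * ρ := by field_simp

include hg hρ in
lemma pull_closedBall {Ω : Set (Euc n)} (hb : Metric.closedBall x ρ ⊆ Ω) :
    Metric.closedBall (cen e g) (g / 2 + 8) ⊆ aff (bb e g x ρ) (ρ / (g / 2 + 8)) ⁻¹' Ω := by
  intro p hp
  rw [mem_closedBall_iff_norm] at hp
  refine hb ?_
  rw [mem_closedBall_iff_norm]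
  have := pull_ball hg hρ (e := e) (x := x) (p := p) (κ := 1) (by linarith)
  linarith

include he hg hρ in
/-- a domain without the obstacle is a domain -/
theorem smoothDomain_md (hn : 2 ≤ n) {Ω : Set (Euc n)} (hΩ : IsSmoothDomain Ω)
    (hb : Metric.closedBall x ρ ⊆ Ω) : IsSmoothDomain (Ω \ md e g x ρ) := by
  have hδ : 0 < ρ / (g / 2 + 8) := by positivity
  have h1 := smoothDomain_diff hn (smoothDomain_pull hδ (c := bb e g x ρ) hΩ) he hg
    (pull_closedBall hg hρ hb)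
  rw [← pull_md hg hρ] at h1
  have hδ' : 0 < (g / 2 + 8) / ρ := by positivity
  have h2 := smoothDomain_pull hδ' (c := cen e g - ((g / 2 + 8) / ρ) • x) h1
  have e1 : aff (cen e g - ((g / 2 + 8) / ρ) • x) ((g / 2 + 8) / ρ) ⁻¹'
      (aff (bb e g x ρ) (ρ / (g / 2 + 8)) ⁻¹' (Ω \ md e g x ρ)) = Ω \ md e g x ρ := by
    ext p
    have e2 : aff (cen e g - ((g / 2 + 8) / ρ) • x) ((g / 2 + 8) / ρ) p
        = cen e g + ((g / 2 + 8) / ρ) • (p - x) := by unfold aff; module
    show aff (bb e g x ρ) (ρ / (g / 2 + 8))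
      (aff (cen e g - ((g / 2 + 8) / ρ) • x) ((g / 2 + 8) / ρ) p) ∈ Ω \ md e g x ρ ↔
        p ∈ Ω \ md e g x ρ
    rw [e2, inv1 hg hρ]
  rwa [e1] at h2

include he hg hρ in
/-- no light enters the dark ball from outside -/
theorem dark_md {Ω : Set (Euc n)} (hΩ : IsOpen Ω) (hb : Metric.closedBall x ρ ⊆ Ω)
    {P : Euc n} (hP : P ∈ Ω \ md e g x ρ) (hPb : P ∉ Metric.closedBall x ρ) (t : ℝ) :
    Disjoint (front (Ω \ md e g x ρ) P t) (Metric.ball x (kap g * ρ)) := by
  rw [disjoint_left]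
  rintro q ⟨v, -, hv⟩ hq
  have hδ : 0 < ρ / (g / 2 + 8) := by positivity
  have h1 := photon_pull hδ hv (cen e g + ((g / 2 + 8) / ρ) • (P - x))
    ((ρ / (g / 2 + 8))⁻¹ • v) (cen e g + ((g / 2 + 8) / ρ) • (q - x))
    (inv1 hg hρ P) (by rw [smul_smul, mul_inv_cancel₀ hδ.ne', one_smul]) (inv1 hg hρ q)
  rw [pull_md hg hρ] at h1
  have hnorm : ∀ z : Euc n, ‖cen e g + ((g / 2 + 8) / ρ) • (z - x) - cen e g‖
      = (g / 2 + 8) / ρ * ‖z - x‖ := by
    intro z
    rw [add_sub_cancel_left, norm_smul, Real.norm_of_nonneg (by positivity)]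
  refine dark (hΩ.preimage (contDiff_aff _ _).continuous) hg he (pull_closedBall hg hρ hb)
    ⟨?_, hP.2⟩ ?_ h1 ?_
  · show aff _ _ _ ∈ Ω
    rw [inv1 hg hρ]
    exact hP.1
  · rw [mem_closedBall_iff_norm, hnorm, not_le]
    rw [mem_closedBall_iff_norm, not_le] at hPb
    calc g / 2 + 8 = (g / 2 + 8) / ρ * ρ := by field_simp
      _ < (g / 2 + 8) / ρ * ‖P - x‖ := mul_lt_mul_of_pos_left hPb (by positivity)
  · rw [mem_ball_iff_norm, hnorm]
    rw [mem_ball_iff_norm] at hq
    unfold kap at hq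
    calc (g / 2 + 8) / ρ * ‖q - x‖ < (g / 2 + 8) / ρ * ((g / 2 - 1) / (g / 2 + 8) * ρ) :=
          mul_lt_mul_of_pos_left hq (by positivity)
      _ = g / 2 - 1 := by field_simp

end One

/-! ### Finitely many obstacles -/

section Many

variable {e : Euc n} (he : ‖e‖ = 1) {g : ℝ} (hg : 8 ≤ g) (r : Euc n → ℝ)

/-- the union of the obstacles -/
def Mds (e : Euc n) (g : ℝ) (r : Euc n → ℝ) (s : Finset (Euc n)) : Set (Euc n) :=
  ⋃ x ∈ s, md e g x (r x)

include he hg in
lemma Mds_sub {s : Finset (Euc n)} (hr : ∀ x ∈ s, 0 < r x) :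
    Mds e g r s ⊆ ⋃ x ∈ s, Metric.closedBall x (r x) :=
  iUnion₂_mono fun x hx => (md_sub he hg (hr x hx)).trans Metric.ball_subset_closedBall

include he hg in
theorem smoothDomain_Mds (hn : 2 ≤ n) {Ω : Set (Euc n)} (hΩ : IsSmoothDomain Ω) :
    ∀ s : Finset (Euc n), (∀ x ∈ s, 0 < r x ∧ Metric.closedBall x (r x) ⊆ Ω) →
      (s : Set (Euc n)).PairwiseDisjoint (fun x => Metric.closedBall x (r x)) →
      IsSmoothDomain (Ω \ Mds e g r s) := by
  classical
  intro s
  induction s using Finset.induction_on with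
  | empty =>
    intro _ _
    simpa [Mds] using hΩ
  | insert a s ha ih =>
    intro h1 h2
    have h3 := ih (fun x hx => h1 x (Finset.mem_insert_of_mem hx))
      (h2.subset (by simp))
    have h4 : Metric.closedBall a (r a) ⊆ Ω \ Mds e g r s := by
      intro p hp
      refine ⟨(h1 a (Finset.mem_insert_self _ _)).2 hp, fun hm => ?_⟩
      have h5 := Mds_sub he hg r (fun x hx => (h1 x (Finset.mem_insert_of_mem hx)).1) hm
      simp only [mem_iUnion] at h5
      obtain ⟨x, hx, hpx⟩ := h5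
      have hne : a ≠ x := fun h => ha (h ▸ hx)
      exact disjoint_left.1 (h2 (by simp) (by simp [hx]) hne) hp hpx
    have h6 := smoothDomain_md he hg (h1 a (Finset.mem_insert_self _ _)).1 hn h3 h4
    have e1 : Ω \ Mds e g r (insert a s) = (Ω \ Mds e g r s) \ md e g a (r a) := by
      unfold Mds
      rw [Finset.set_biUnion_insert]
      ext p
      simp only [Set.mem_sdiff, mem_union]
      tauto
    rw [e1]
    exact h6

include he hg in
/-- every dark ball is dark for all points outside its obstacle -/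
theorem dark_Mds {Ω : Set (Euc n)} (hΩ : IsOpen Ω) {s : Finset (Euc n)}
    (h1 : ∀ x ∈ s, 0 < r x ∧ Metric.closedBall x (r x) ⊆ Ω)
    (h2 : (s : Set (Euc n)).PairwiseDisjoint (fun x => Metric.closedBall x (r x)))
    {P : Euc n} (hP : P ∈ Ω \ Mds e g r s) {a : Euc n} (ha : a ∈ s)
    (hPa : P ∉ Metric.closedBall a (r a)) (t : ℝ) :
    Disjoint (front (Ω \ Mds e g r s) P t) (Metric.ball a (kap g * r a)) := by
  classical
  have e1 : Ω \ Mds e g r s = (Ω \ Mds e g r (s.erase a)) \ md e g a (r a) := by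
    conv_lhs => rw [← Finset.insert_erase ha]
    unfold Mds
    rw [Finset.set_biUnion_insert]
    ext p
    simp only [Set.mem_sdiff, mem_union]
    tauto
  have hcl : IsClosed (Mds e g r (s.erase a)) := by
    unfold Mds
    exact isClosed_biUnion_finset fun x _ => isClosed_md
  have h4 : Metric.closedBall a (r a) ⊆ Ω \ Mds e g r (s.erase a) := by
    intro p hp
    refine ⟨(h1 a ha).2 hp, fun hm => ?_⟩
    have h5 := Mds_sub he hg r (fun x hx => (h1 x (Finset.mem_of_mem_erase hx)).1) hm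
    simp only [mem_iUnion] at h5
    obtain ⟨x, hx, hpx⟩ := h5
    exact disjoint_left.1 (h2 ha (Finset.mem_of_mem_erase hx) (Finset.ne_of_mem_erase hx).symm)
      hp hpx
  rw [e1] at hP ⊢
  exact dark_md he hg (h1 a ha).1 (hΩ.sdiff hcl) h4 hP hPa t

end Many

end

end Pool.Agent.KS6_90.PD
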