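import Pool.Agent.KS6_90.PD.Dyn
import Pool.Agent.KS6_90.PD.Conn

/-!
# Removing the obstacle from a domain; similarities (helper90)
-/

set_option autoImplicit false
open Set Filter Topology
open scoped RealInnerProductSpace ContDiff

namespace Pool.Agent.KS6_90.PD
open Pool.Agent.H800R2 Pool.Agent.N237.Pen

noncomputable section

/-- removing a closed set with connected complement in a neighbourhood -/
lemma isPreconnected_sdiff {X : Type*} [TopologicalSpace X] {Ω D K : Set X}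
    (hΩ : IsPreconnected Ω) (hΩo : IsOpen Ω) (hK : IsClosed K) (hKD : K ⊆ interior D)
    (hDK : IsPreconnected (D \ K)) (hDΩ : D ⊆ Ω) : IsPreconnected (Ω \ K) := by
  -- it is enough to treat one of the two cases
  have main : ∀ u v : Set X, IsOpen u → IsOpen v → Ω \ K ⊆ u ∪ v → ((Ω \ K) ∩ u).Nonempty →
      ((Ω \ K) ∩ v).Nonempty → (D \ K) ∩ v = ∅ → ((Ω \ K) ∩ (u ∩ v)).Nonempty := by
    intro u v hu hv hc h1 h2 h3
    have hO : IsOpen (Ω \ K) := hΩo.sdiff hK
    have key := hΩ ((Ω \ K) ∩ u ∪ interior D) ((Ω \ K) ∩ v) ((hO.inter hu).union isOpen_interior)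
      (hO.inter hv) ?_ ?_ ?_
    · obtain ⟨x, -, hx1, hx2⟩ := key
      rcases hx1 with h | h
      · exact ⟨x, h.1, h.2, hx2.2⟩
      · exfalso
        have : x ∈ (D \ K) ∩ v := ⟨⟨interior_subset h, hx2.1.2⟩, hx2.2⟩
        rw [h3] at this
        exact this
    · intro x hx
      by_cases hxK : x ∈ K
      · exact Or.inl (Or.inr (hKD hxK))
      · rcases hc ⟨hx, hxK⟩ with h | h
        · exact Or.inl (Or.inl ⟨⟨hx, hxK⟩, h⟩)
        · exact Or.inr ⟨⟨hx, hxK⟩, h⟩
    · obtain ⟨x, hx⟩ := h1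
      exact ⟨x, hx.1.1, Or.inl hx⟩
    · obtain ⟨x, hx⟩ := h2
      exact ⟨x, hx.1.1, hx⟩
  intro u v hu hv hc h1 h2
  by_cases h3 : (D \ K) ∩ v = ∅
  · exact main u v hu hv hc h1 h2 h3
  by_cases h4 : (D \ K) ∩ u = ∅
  · have := main v u hv hu (by rwa [union_comm]) h2 h1 h4
    rwa [inter_comm v u] at this
  · obtain ⟨x, hx⟩ := hDK u v hu hv ((Set.sdiff_subset_sdiff_left hDΩ).trans hc)
      (nonempty_iff_ne_empty.2 h4) (nonempty_iff_ne_empty.2 h3)
    exact ⟨x, ⟨hDΩ hx.1.1, hx.1.2⟩, hx.2⟩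

variable {n : ℕ}

/-- a domain without the obstacle is a domain -/
theorem smoothDomain_diff (hn : 2 ≤ n) {Ω : Set (Euc n)} (hΩ : IsSmoothDomain Ω) {e : Euc n}
    (he : ‖e‖ = 1) {g : ℝ} (hg : 8 ≤ g) (hD : Metric.closedBall (cen e g) (g / 2 + 8) ⊆ Ω) :
    IsSmoothDomain (Ω \ Ob e g) := by
  have hball : Ob e g ⊆ Metric.ball (cen e g) (g / 2 + 8) := fun p hp => by
    rw [mem_ball_iff_norm]
    linarith [Ob_sub he hg hp]
  have hob : Ob e g ⊆ Ω := (hball.trans Metric.ball_subset_closedBall).trans hD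
  have hW := isConnected_Wd hn he hg
  refine ⟨hΩ.isOpen.sdiff (isClosed_Ob e g), ⟨?_, ?_⟩,
    hΩ.isBounded.subset Set.sdiff_subset, smooth_diff hΩ.isOpen hΩ.smooth he hg hob⟩
  · obtain ⟨x, hx⟩ := hW.nonempty
    exact ⟨x, hD hx.1, hx.2⟩
  · refine isPreconnected_sdiff hΩ.isConnected.isPreconnected hΩ.isOpen (isClosed_Ob e g)
      (hball.trans Metric.ball_subset_interior_closedBall) ?_ hD
    exact hW.isConnected.isPreconnected

/-! ### Similarities -/

/-- the similarity `x ↦ c + δ x` -/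
def aff (c : Euc n) (δ : ℝ) (x : Euc n) : Euc n := c + δ • x

lemma aff_line (c : Euc n) (δ : ℝ) (x v : Euc n) (t : ℝ) :
    aff c δ (x + t • v) = aff c δ x + t • (δ • v) := by
  unfold aff
  module

lemma contDiff_aff (c : Euc n) (δ : ℝ) : ContDiff ℝ ∞ (aff c δ) := by
  unfold aff
  fun_prop

/-- the similarity as a homeomorphism -/
def affH (c : Euc n) {δ : ℝ} (hδ : δ ≠ 0) : Euc n ≃ₜ Euc n :=
  (Homeomorph.smulOfNeZero δ hδ).trans (Homeomorph.addLeft c)

lemma affH_apply (c : Euc n) {δ : ℝ} (hδ : δ ≠ 0) (x : Euc n) : affH c hδ x = aff c δ x := rfl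

lemma frontier_pull (c : Euc n) {δ : ℝ} (hδ : δ ≠ 0) (Ω : Set (Euc n)) :
    frontier (aff c δ ⁻¹' Ω) = aff c δ ⁻¹' frontier Ω :=
  ((affH c hδ).preimage_frontier Ω).symm

lemma gradient_pull (c : Euc n) (δ : ℝ) {F : Euc n → ℝ} (hF : ContDiff ℝ ∞ F) (x : Euc n) :
    gradient (F ∘ aff c δ) x = δ • gradient F (aff c δ x) := by
  apply grad_eq
  intro u
  refine grad_inner (hF.comp (contDiff_aff c δ)) x u ?_
  have hd : HasFDerivAt F (fderiv ℝ F (aff c δ x)) (aff c δ x) :=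
    (hF.differentiable (by simp)).differentiableAt.hasFDerivAt
  have hl : HasDerivAt (fun s : ℝ => aff c δ x + s • (δ • u)) (δ • u) 0 := by
    simpa using ((hasDerivAt_id (0 : ℝ)).smul_const (δ • u)).const_add (aff c δ x)
  have hc : HasDerivAt (fun s : ℝ => F (aff c δ x + s • (δ • u))) (fderiv ℝ F (aff c δ x) (δ • u))
      0 :=
    HasFDerivAt.comp_hasDerivAt (x := (0 : ℝ)) (f := fun s : ℝ => aff c δ x + s • (δ • u))
      (l := F) (l' := fderiv ℝ F (aff c δ x)) (by simpa using hd) hl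
  have hg : ⟪δ • gradient F (aff c δ x), u⟫ = fderiv ℝ F (aff c δ x) (δ • u) := by
    unfold gradient
    rw [inner_smul_left, InnerProductSpace.toDual_symm_apply, map_smul]
    simp
  rw [hg]
  have e1 : (fun t : ℝ => (F ∘ aff c δ) (x + t • u)) = fun s : ℝ => F (aff c δ x + s • (δ • u)) :=
    funext fun t => by
      show F (aff c δ (x + t • u)) = _
      rw [aff_line]
  rw [e1]
  exact hc

lemma defFun_pull {c : Euc n} {δ : ℝ} (hδ : 0 < δ) {Ω : Set (Euc n)} {x : Euc n}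
    {F : Euc n → ℝ} (h : IsDefFun Ω (aff c δ x) F) :
    IsDefFun (aff c δ ⁻¹' Ω) x (F ∘ aff c δ) := by
  refine ⟨h.1.comp (contDiff_aff c δ), ?_, ?_⟩
  · rw [gradient_pull c δ h.1]
    exact smul_ne_zero hδ.ne' h.2.1
  · exact (contDiff_aff c δ).continuous.continuousAt.eventually h.2.2

lemma normal_pull {c : Euc n} {δ : ℝ} (hδ : 0 < δ) {Ω : Set (Euc n)} {x ν : Euc n}
    (h : IsOuterNormal Ω (aff c δ x) ν) : IsOuterNormal (aff c δ ⁻¹' Ω) x ν := by
  obtain ⟨F, hF, rfl⟩ := h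
  refine ⟨F ∘ aff c δ, defFun_pull hδ hF, ?_⟩
  rw [gradient_pull c δ hF.1, norm_smul, Real.norm_of_nonneg hδ.le, smul_smul, mul_inv]
  congr 1
  field_simp

/-- the image of a smooth domain under a similarity -/
theorem smoothDomain_pull {c : Euc n} {δ : ℝ} (hδ : 0 < δ) {Ω : Set (Euc n)}
    (h : IsSmoothDomain Ω) : IsSmoothDomain (aff c δ ⁻¹' Ω) := by
  refine ⟨h.isOpen.preimage (contDiff_aff c δ).continuous, ?_, ?_, ?_⟩
  · have e1 : aff c δ ⁻¹' Ω = (affH c hδ.ne').symm '' Ω := by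
      rw [Homeomorph.image_symm]; rfl
    rw [e1]
    exact h.isConnected.image _ (affH c hδ.ne').symm.continuous.continuousOn
  · obtain ⟨M, hM⟩ := h.isBounded.subset_closedBall 0
    refine (Metric.isBounded_closedBall (x := (0 : Euc n)) (r := (M + ‖c‖) / δ)).subset
      fun x hx => ?_
    rw [mem_closedBall_zero_iff, le_div_iff₀ hδ]
    have h1 := hM hx
    rw [mem_closedBall_zero_iff] at h1
    have h2 : ‖δ • x‖ ≤ ‖aff c δ x‖ + ‖c‖ := by
      have : δ • x = aff c δ x - c := by unfold aff; abel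
      rw [this]
      exact norm_sub_le _ _
    rw [norm_smul, Real.norm_of_nonneg hδ.le] at h2
    linarith
  · intro x hx
    rw [frontier_pull c hδ.ne'] at hx
    obtain ⟨F, hF⟩ := h.smooth _ hx
    exact ⟨_, defFun_pull hδ hF⟩

/-- photons are mapped to photons -/
theorem photon_pull {c : Euc n} {δ : ℝ} (hδ : 0 < δ) {Ω : Set (Euc n)} {p v q : Euc n} {t : ℝ}
    (h : Photon Ω p v t q) : ∀ p' v' q' : Euc n, aff c δ p' = p → δ • v' = v → aff c δ q' = q →
      Photon (aff c δ ⁻¹' Ω) p' v' t q' := by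
  have inj : Function.Injective (aff c δ) := (affH c hδ.ne').injective
  induction h with
  | fly p v t ht hin =>
    rintro p' v' q' rfl rfl hq
    have h1 : q' = p' + t • v' := inj (by rw [hq, aff_line])
    rw [h1]
    refine Photon.fly p' v' t ht fun s hs => ?_
    show aff c δ (p' + s • v') ∈ Ω
    rw [aff_line]
    exact hin s hs
  | bounce p v ν q τ t hτ hin hb hν hv _ ih =>
    rintro p' v' q' rfl rfl hq
    have h2 : ⟪δ • v', ν⟫ = δ * ⟪v', ν⟫ := by rw [inner_smul_left]; simp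
    rw [← aff_line] at hb hν
    refine Photon.bounce p' v' ν q' τ t hτ (fun s hs => ?_) ?_ (normal_pull hδ hν) ?_ ?_
    · show aff c δ (p' + s • v') ∈ Ω
      rw [aff_line]
      exact hin s hs
    · rw [frontier_pull c hδ.ne']
      exact hb
    · rw [h2] at hv
      exact (mul_pos_iff_of_pos_left hδ).1 hv
    · refine ih _ _ _ (aff_line _ _ _ _ _) ?_ hq
      rw [h2]
      module

end

end Pool.Agent.KS6_90.PD
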